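import Pool.Agent.W494.CD.Cls
set_option autoImplicit false
namespace Pool.Agent.W494.CD
open Finset

theorem codeg_eq (r n : ℕ) (G : Finset (Finset (Fin n))) (hG : ∀ e ∈ G, e.card = r)
    (S : Finset (Fin n)) (hS : S.card + 1 = r) :
    codeg (fun e => e ∈ G) S = (G.filter (fun e => S ⊆ e)).card := by
  unfold codeg
  rw [← Set.ncard_coe_finset]
  apply Set.ncard_congr (fun w (_ : w ∈ {w | ∃ hw : w ∉ S, Finset.cons w S hw ∈ G}) => insert w S)
  · rintro w ⟨hw, h⟩
    rw [mem_coe, mem_filter, ← Finset.cons_eq_insert _ _ hw]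
    exact ⟨h, Finset.subset_cons hw⟩
  · rintro w w' ⟨hw, _⟩ ⟨hw', _⟩ heq
    have : w ∈ insert w' S := by rw [← heq]; exact mem_insert_self _ _
    rw [mem_insert] at this
    rcases this with h | h
    · exact h
    · exact absurd h hw
  · intro e he
    rw [mem_coe, mem_filter] at he
    obtain ⟨heG, hSe⟩ := he
    have h1 := hG e heG
    have h2 : (e \ S).card = 1 := by
      rw [Finset.card_sdiff_of_subset hSe]; omega
    rw [Finset.card_eq_one] at h2
    obtain ⟨w, hw⟩ := h2
    have hwe : w ∈ e \ S := by rw [hw]; simp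
    rw [mem_sdiff] at hwe
    have h3 : insert w S = e := by
      apply Finset.eq_of_subset_of_card_le
      · intro x hx
        rw [mem_insert] at hx
        rcases hx with rfl | hx
        · exact hwe.1
        · exact hSe hx
      · rw [Finset.card_insert_of_notMem hwe.2]; omega
    refine ⟨w, ⟨hwe.2, ?_⟩, h3⟩
    rw [Finset.cons_eq_insert, h3]
    exact heG

theorem conv (r : ℕ) (hr : 3 ≤ r) (d : ℝ) (hd0 : 0 ≤ d) (hd1 : d < 1) (h : HasDens r d) :
      ∃ F : (m : ℕ) → Set (Finset (Finset (Fin m))),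
        (∀ m : ℕ, ∀ H ∈ F m, ∀ e ∈ H, e.card = r) ∧
        ∀ ε : ℝ, 0 < ε → ∃ N : ℕ, ∀ n : ℕ, N ≤ n →
          (∃ G : Finset (Finset (Fin n)),
              (∀ e ∈ G, e.card = r) ∧
              (∀ m : ℕ, ∀ H ∈ F m, ∀ f : Fin m ↪ Fin n, ∃ e ∈ H, e.map f ∉ G) ∧
              ∀ S : Finset (Fin n), S.card = r - 1 →
                (d - ε) * ((n : ℝ) - (r : ℝ) + 1) ≤ ((G.filter (fun e => S ⊆ e)).card : ℝ)) ∧
          (∀ G : Finset (Finset (Fin n)),
              (∀ e ∈ G, e.card = r) →
              (∀ m : ℕ, ∀ H ∈ F m, ∀ f : Fin m ↪ Fin n, ∃ e ∈ H, e.map f ∉ G) →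
              ∃ S : Finset (Fin n), S.card = r - 1 ∧
                ((G.filter (fun e => S ⊆ e)).card : ℝ) < (d + ε) * ((n : ℝ) - (r : ℝ) + 1)) := by
  obtain ⟨K, hK, hl, hu⟩ := h
  refine ⟨fun m => {H | (∀ e ∈ H, e.card = r) ∧ ¬ K (Fin m) (fun e => e ∈ H)}, ?_, ?_⟩
  · intro m H hH
    exact hH.1
  · intro ε hε
    obtain ⟨N1, hN1⟩ := hl ε hε
    obtain ⟨N2, hN2⟩ := hu (ε / 2) (by linarith)
    refine ⟨N1 + N2 + r + ⌈((1 + ε) * r) / (ε / 2)⌉₊ + 1, fun n hn => ⟨?_, ?_⟩⟩
    · obtain ⟨E, hKE, hE⟩ := hN1 (Fin n) (by rw [Fintype.card_fin]; omega)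
      classical
      refine ⟨univ.filter (fun e => e.card = r ∧ E e), ?_, ?_, ?_⟩
      · intro e he
        rw [mem_filter] at he
        exact he.2.1
      · intro m H hH g
        by_contra hcon
        push Not at hcon
        apply hH.2
        refine hK (Fin m) (Fin n) g _ E ?_ hKE
        intro e he heH
        have := hcon e heH
        rw [mem_filter] at this
        exact this.2.2
      · intro S hS
        rw [← codeg_eq r n _ (fun e he => by rw [mem_filter] at he; exact he.2.1) S (by omega)]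
        have h1 := hE S (by omega)
        have h2 : codeg E S
            ≤ codeg (fun e => e ∈ univ.filter (fun e : Finset (Fin n) => e.card = r ∧ E e)) S := by
          unfold codeg
          apply Set.ncard_le_ncard _ (Set.toFinite _)
          rintro w ⟨hw, hEw⟩
          refine ⟨hw, mem_filter.mpr ⟨mem_univ _, ?_, hEw⟩⟩
          rw [card_cons]; omega
        have h3 : (codeg E S : ℝ)
            ≤ codeg (fun e => e ∈ univ.filter (fun e : Finset (Fin n) => e.card = r ∧ E e)) S := by
          exact_mod_cast h2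
        refine le_trans ?_ h3
        rw [Fintype.card_fin] at h1
        have hnr : (r : ℝ) ≤ n := by
          have : r ≤ n := by omega
          exact_mod_cast this
        have hr3 : (3 : ℝ) ≤ r := by exact_mod_cast hr
        rcases le_or_gt 0 (d - ε) with h4 | h4
        · refine le_trans ?_ h1
          apply mul_le_mul_of_nonneg_left _ h4
          linarith
        · have : (d - ε) * ((n : ℝ) - r + 1) ≤ 0 :=
            mul_nonpos_of_nonpos_of_nonneg h4.le (by linarith)
          exact this.trans (Nat.cast_nonneg _)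
    · intro G hG hfree
      have hKG : K (Fin n) (fun e => e ∈ G) := by
        by_contra hcon
        obtain ⟨e, he, he'⟩ := hfree n G ⟨hG, hcon⟩ (Function.Embedding.refl _)
        rw [Finset.map_refl] at he'
        exact he' he
      obtain ⟨S, hS, hS2⟩ := hN2 (Fin n) (by rw [Fintype.card_fin]; omega) _ hKG
      refine ⟨S, by omega, ?_⟩
      rw [← codeg_eq r n G hG S hS]
      rw [Fintype.card_fin] at hS2
      have h1 : ⌈((1 + ε) * (r : ℝ)) / (ε / 2)⌉₊ + 1 ≤ n := by omega
      have h2 : ((1 + ε) * (r : ℝ)) / (ε / 2) < n := by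
        have h3 := Nat.le_ceil (((1 + ε) * (r : ℝ)) / (ε / 2))
        have h4 : ((⌈((1 + ε) * (r : ℝ)) / (ε / 2)⌉₊ : ℕ) : ℝ) + 1 ≤ n := by exact_mod_cast h1
        linarith
      rw [div_lt_iff₀ (by linarith)] at h2
      have hr3 : (3 : ℝ) ≤ r := by exact_mod_cast hr
      nlinarith

end Pool.Agent.W494.CD
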