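import Pool.Agent.W494.CD.Engel2
set_option autoImplicit false
namespace Pool.Agent.W494.CD
open Finset

theorem engK_upper (r k : ℕ) (hr : 3 ≤ r) (v : ℝ) (hv0 : 0 ≤ v) (hv1 : v * (k + 1) ≤ 1)
    (K : ∀ V : Type, (Finset V → Prop) → Prop)
    (hu : ∀ ε : ℝ, 0 < ε → ∃ N : ℕ, ∀ (V : Type) [Fintype V], N ≤ Fintype.card V →
      ∀ E, K V E → ∃ S : Finset V, S.card + 1 = r ∧
        (codeg E S : ℝ) ≤ (v + ε) * Fintype.card V)
    (ε : ℝ) (hε : 0 < ε) : ∃ N : ℕ, ∀ (V : Type) [Fintype V], N ≤ Fintype.card V →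
      ∀ E, EngK r k K V E → ∃ S : Finset V, S.card + 1 = r ∧
        (codeg E S : ℝ) ≤ ((1 + v) / (k + 2) + ε) * Fintype.card V := by
  classical
  obtain ⟨N1, hN1⟩ := hu (ε / 2) (by linarith)
  refine ⟨(k + 2) * N1 + 1 + ⌈(N1 : ℝ) / (ε / 2)⌉₊, fun V _ hV E hE => ?_⟩
  set n := Fintype.card V with hn
  obtain ⟨c, hc1, hc2⟩ := hE
  by_contra hcon
  push Not at hcon
  have hk2 : (0 : ℝ) < k + 2 := by positivity
  have hbig : (N1 : ℝ) ≤ ε / 2 * n := by
    have h1 : ⌈(N1 : ℝ) / (ε / 2)⌉₊ ≤ n := by omega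
    have h2 : (N1 : ℝ) / (ε / 2) ≤ n := (Nat.le_ceil _).trans (by exact_mod_cast h1)
    rw [div_le_iff₀ (by linarith)] at h2
    linarith
  have hcell : ∀ i, Fintype.card {u // c u = i} = (univ.filter (fun v => c v = i)).card := by
    intro i; rw [Fintype.card_subtype]
  set nn : ZMod (k + 2) → ℕ := fun i => (univ.filter (fun v => c v = i)).card with hnn
  have hd : v ≤ (1 + v) / (k + 2) := by
    rw [le_div_iff₀ hk2]; linarith
  -- main inequality for a large cell
  have hmain : ∀ i, N1 ≤ nn i →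
      ((1 + v) / (k + 2) + ε) * n < (v + ε / 2) * nn i + nn (i + 1) := by
    intro i hi
    obtain ⟨S', hS', hS'2⟩ := hN1 {u // c u = i} (by rw [hcell]; exact hi) _ (hc1 i)
    have h1 := hcon (S'.map (Function.Embedding.subtype _)) (by rw [card_map]; exact hS')
    rw [hcell] at hS'2
    have h2 : codeg E (S'.map (Function.Embedding.subtype _))
        ≤ codeg (fun e : Finset {u // c u = i} => E (e.map (Function.Embedding.subtype _))) S'
          + nn (i + 1) := by
      simp only [hnn]
      rw [← Set.ncard_coe_finset]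
      unfold codeg
      rw [← Set.ncard_image_of_injective
        {w : {u // c u = i} | ∃ hw, E ((Finset.cons w S' hw).map (Function.Embedding.subtype _))}
        Subtype.val_injective]
      refine le_trans (Set.ncard_le_ncard ?_ (Set.toFinite _)) (Set.ncard_union_le _ _)
      rintro w ⟨hw, hEw⟩
      have hcard : (Finset.cons w (S'.map (Function.Embedding.subtype _)) hw).card = r := by
        rw [card_cons, card_map]; exact hS'
      have h3 := hc2 _ hcard hEw w (by simp) i ?_
      · rcases h3 with h3 | h3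
        · left
          refine ⟨⟨w, h3⟩, ⟨?_, ?_⟩, rfl⟩
          · intro hcon
            apply hw
            exact mem_map_of_mem (Function.Embedding.subtype _) hcon
          · rw [Finset.map_cons]; exact hEw
        · right
          simp [h3]
      · intro u hu huw
        rw [mem_cons] at hu
        rcases hu with h | h
        · exact absurd h huw
        · rw [mem_map] at h
          obtain ⟨y, _, rfl⟩ := h
          exact y.2
    have h3 : (codeg E (S'.map (Function.Embedding.subtype _)) : ℝ)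
        ≤ codeg (fun e : Finset {u // c u = i} => E (e.map (Function.Embedding.subtype _))) S'
          + nn (i + 1) := by exact_mod_cast h2
    linarith
  have hnle : ∀ i, nn i ≤ n := fun i => by
    simp only [hnn, hn]
    exact Finset.card_le_univ _
  have hstep : ∀ i, N1 ≤ nn i → N1 ≤ nn (i + 1) := by
    intro i hi
    have h1 := hmain i hi
    have h2 : (v + ε / 2) * (nn i : ℝ) ≤ (v + ε / 2) * n :=
      mul_le_mul_of_nonneg_left (by exact_mod_cast hnle i) (by linarith)
    have h3 : v * n ≤ (1 + v) / (k + 2) * n := mul_le_mul_of_nonneg_right hd (Nat.cast_nonneg _)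
    have h4 : (N1 : ℝ) < nn (i + 1) := by nlinarith
    have : N1 < nn (i + 1) := by exact_mod_cast h4
    exact this.le
  have hsum : ∑ i, nn i = n := by
    simp only [hnn, hn]
    rw [← Finset.card_univ, ← Finset.card_eq_sum_card_fiberwise]
    intro x _; simp
  obtain ⟨i0, hi0⟩ : ∃ i, N1 ≤ nn i := by
    by_contra hc
    push Not at hc
    have h1 : ∑ i, nn i ≤ ∑ _i : ZMod (k + 2), N1 := Finset.sum_le_sum (fun i _ => (hc i).le)
    rw [hsum] at h1
    simp only [sum_const, card_univ, ZMod.card, smul_eq_mul] at h1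
    omega
  have hall : ∀ i, N1 ≤ nn i := by
    have h1 : ∀ t : ℕ, N1 ≤ nn (i0 + (t : ZMod (k + 2))) := by
      intro t
      induction t with
      | zero => simpa using hi0
      | succ t ih =>
        have := hstep _ ih
        push_cast
        rw [← add_assoc]
        exact this
    intro i
    have := h1 (i - i0).val
    rw [ZMod.natCast_zmod_val, add_sub_cancel] at this
    exact this
  have h1 : ∑ _i : ZMod (k + 2), ((1 + v) / (k + 2) + ε) * (n : ℝ)
      < ∑ i, ((v + ε / 2) * (nn i : ℝ) + nn (i + 1)) :=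
    Finset.sum_lt_sum_of_nonempty univ_nonempty (fun i _ => hmain i (hall i))
  have hsumR : ∑ i, (nn i : ℝ) = n := by rw [← hsum]; push_cast; rfl
  rw [Finset.sum_add_distrib, ← Finset.mul_sum univ (fun i => (nn i : ℝ)) (v + ε / 2), hsumR] at h1
  have h2 : ∑ i, ((nn (i + 1) : ℕ) : ℝ) = n := by
    rw [← hsum, Nat.cast_sum]
    exact Equiv.sum_comp (Equiv.addRight (1 : ZMod (k + 2))) (fun i => (nn i : ℝ))
  rw [h2] at h1
  simp only [sum_const, card_univ, ZMod.card, nsmul_eq_mul] at h1
  push_cast at h1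
  have h3 : ((k : ℝ) + 2) * (((1 + v) / (k + 2) + ε) * n) = (1 + v) * n + (k + 2) * ε * n := by
    field_simp
  rw [h3] at h1
  have h4 : 0 ≤ ε * n := by positivity
  have h5 : 0 ≤ (k : ℝ) * (ε * n) := by positivity
  nlinarith

theorem engel (r k : ℕ) (hr : 3 ≤ r) (v : ℝ) (hv0 : 0 ≤ v) (hv1 : v * (k + 1) ≤ 1)
    (h : HasDens r v) : HasDens r ((1 + v) / (k + 2)) := by
  obtain ⟨K, h1, h2, h3⟩ := h
  have hv : v ≤ 1 := by
    have : (0 : ℝ) ≤ v * k := by positivity
    nlinarith
  exact ⟨EngK r k K, engK_mono r k K h1, engK_lower r k hr v hv0 hv K h1 h2,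
    engK_upper r k hr v hv0 hv1 K h3⟩

/-- one step down: all densities below `1/(k+2)` gives all densities below `1/(k+1)`. -/
theorem down (r k : ℕ) (hr : 3 ≤ r) (h : ∀ d : ℝ, 0 ≤ d → d * (k + 2) < 1 → HasDens r d) :
    ∀ d : ℝ, 0 ≤ d → d * (k + 1) < 1 → HasDens r d := by
  have key : ∀ j : ℕ, ∀ d : ℝ, 0 ≤ d → d * (k + 1) < 1 →
      1 < (1 - d * (k + 1)) * (k + 2) ^ (j + 1) → HasDens r d := by
    intro j
    induction j with
    | zero =>
      intro d hd0 hd1 hd2
      apply h d hd0
      have hk : (0 : ℝ) ≤ k := Nat.cast_nonneg _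
      simp only [zero_add, pow_one] at hd2
      -- (1 - d(k+1))(k+2) > 1
      have : d * ((k + 1) * (k + 2)) < k + 1 := by nlinarith
      have h2 : (0 : ℝ) < k + 1 := by positivity
      by_contra hc
      push Not at hc
      nlinarith
    | succ j ih =>
      intro d hd0 hd1 hd2
      by_cases hd : d * (k + 2) < 1
      · exact h d hd0 hd
      · push Not at hd
        have hk : (0 : ℝ) ≤ k := Nat.cast_nonneg _
        have e1 : ((k : ℝ) + 2) ≠ 0 := by positivity
        have h1 : 0 ≤ d * (k + 2) - 1 := by linarith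
        have h2 : (d * (k + 2) - 1) * (k + 1) < 1 := by nlinarith
        have h3 : 1 < (1 - (d * (k + 2) - 1) * (k + 1)) * (k + 2) ^ (j + 1) := by
          have : 1 - (d * (k + 2) - 1) * ((k : ℝ) + 1) = (1 - d * (k + 1)) * (k + 2) := by ring
          rw [this]
          calc (1 : ℝ) < _ := hd2
            _ = _ := by ring
        have h4 := engel r k hr (d * (k + 2) - 1) h1 h2.le (ih _ h1 h2 h3)
        have h5 : (1 + (d * (k + 2) - 1)) / ((k : ℝ) + 2) = d := by field_simp; ring
        rwa [h5] at h4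
  intro d hd0 hd1
  have h1 : 0 < 1 - d * (k + 1) := by linarith
  obtain ⟨j, hj⟩ := pow_unbounded_of_one_lt (1 / (1 - d * (k + 1))) (show (1 : ℝ) < 2 by norm_num)
  refine key j d hd0 hd1 ?_
  rw [div_lt_iff₀ h1] at hj
  have h2 : (2 : ℝ) ^ j ≤ (k + 2) ^ (j + 1) := by
    have hk : (0 : ℝ) ≤ k := Nat.cast_nonneg _
    calc (2 : ℝ) ^ j ≤ (k + 2) ^ j := pow_le_pow_left₀ (by norm_num) (by linarith) j
      _ ≤ (k + 2) ^ (j + 1) := pow_le_pow_right₀ (by linarith) (by omega)
  nlinarith

theorem all_of_small (r : ℕ) (hr : 3 ≤ r) (m : ℕ)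
    (h : ∀ d : ℝ, 0 < d → d * (m + 1) < 1 → HasDens r d) :
    ∀ d : ℝ, 0 ≤ d → d < 1 → HasDens r d := by
  have h0 : ∀ d : ℝ, 0 ≤ d → d * (m + 1) < 1 → HasDens r d := by
    intro d hd0 hd1
    rcases hd0.eq_or_lt with rfl | hd
    · exact hasDens_zero r (by omega)
    · exact h d hd hd1
  clear h
  induction m with
  | zero =>
    intro d hd0 hd1
    exact h0 d hd0 (by simpa using hd1)
  | succ m ih =>
    apply ih
    apply down r m hr
    intro d hd0 hd1
    apply h0 d hd0
    push_cast
    linarith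

end Pool.Agent.W494.CD
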