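import Pool.Agent.W494.CD.Upper
set_option autoImplicit false
namespace Pool.Agent.W494.CD
open Finset

section
variable {y : ℝ} (D : Dat y) {V : Type} [Fintype V]

theorem pick (r : ℕ) (hr : 3 ≤ r) (P Q : Finset V) (hPQ : Disjoint P Q) (hP : r ≤ P.card)
    (hQ : r ≤ Q.card) : ∃ (S : Finset V) (v : V), v ∈ S ∧ S.card + 1 = r ∧ v ∈ Q ∧
      ∀ u ∈ S, u ≠ v → u ∈ P := by
  obtain ⟨S0, hS1, hS2⟩ := Finset.exists_subset_card_eq (s := P) (n := r - 2) (by omega)
  obtain ⟨v, hv⟩ : Q.Nonempty := by rw [← card_pos]; omega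
  have hvS : v ∉ S0 := fun h => (Finset.disjoint_left.mp hPQ) (hS1 h) hv
  refine ⟨Finset.cons v S0 hvS, v, by simp, by rw [card_cons]; omega, hv, ?_⟩
  intro u hu huv
  rw [mem_cons] at hu
  rcases hu with h | h
  · exact absurd h huv
  · exact hS1 h

def Rows (r n : ℕ) (z : V → ℕ) (c : ℕ → V → ℕ) (j : ℕ) : Prop :=
  ∀ a, a < 2 → ∀ p, p < 2 * D.s j → ∀ τ, τ < D.t j →
    ∃ (S : Finset V) (v : V), v ∈ S ∧ S.card + 1 = r ∧ Req D n z c S v a j (D.N j p τ)

theorem rows_zero (r n : ℕ) (hr : 3 ≤ r) (z : V → ℕ) (c : ℕ → V → ℕ)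
    (hbig : ∀ q, q < nP D → r ≤ cnt z q) : Rows D r n z c 0 := by
  classical
  intro a ha p hp τ hτ
  have h1 := D.mu_s
  have h2 := D.mu_t
  have h3 : nP D = 4 * D.mu + 4 := by unfold nP; ring
  obtain ⟨S, v, hvS, hS, hv, hS'⟩ := pick r hr (univ.filter (fun v => z v = 4 * (p + 1) + a))
    (univ.filter (fun v => z v = 4 * (τ + 1) + a + 2)) (by
      rw [Finset.disjoint_left]
      intro v h1 h2
      rw [mem_filter] at h1 h2
      omega)
    (by have := hbig (4 * (p + 1) + a) (by omega); unfold cnt at this; convert this)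
    (by have := hbig (4 * (τ + 1) + a + 2) (by omega); unfold cnt at this; convert this)
  refine ⟨S, v, hvS, hS, Or.inl ⟨rfl, p, τ, hp, hτ, ?_, ?_, rfl⟩⟩
  · intro u hu huv
    have := hS' u hu huv
    rw [mem_filter] at this
    exact this.2
  · rw [mem_filter] at hv
    exact hv.2

theorem row_eq (i p τ : ℕ) (hτ : τ < D.t (i + 1)) :
    row D i (bb D i + (p / D.s i * D.t (i + 1) + τ)) (p % D.s i) = D.N (i + 1) p τ := by
  unfold row
  rw [Nat.add_sub_cancel_left]
  have h1 : (p / D.s i * D.t (i + 1) + τ) / D.t (i + 1) = p / D.s i := by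
    rw [Nat.mul_comm, Nat.mul_add_div (by omega), Nat.div_eq_of_lt hτ, Nat.add_zero]
  have h2 : (p / D.s i * D.t (i + 1) + τ) % D.t (i + 1) = τ := by
    rw [Nat.mul_comm, Nat.mul_add_mod, Nat.mod_eq_of_lt hτ]
  rw [h1, h2, Nat.div_add_mod' p (D.s i)]

theorem rows_succ (r n j : ℕ) (hj : j < n) (hr : 3 ≤ r) (z : V → ℕ) (c : ℕ → V → ℕ)
    (hbig : ∀ q, q < 4 → ∀ x, x < D.s j → ∃ T : Finset V, r ≤ T.card ∧ ∀ v ∈ T, z v = q ∧ c j v = x) :
    Rows D r n z c (j + 1) := by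
  classical
  intro a ha p hp τ hτ
  have hs := D.s1 j
  have hsup := D.supply j
  have hfle := D.f_le j
  rw [D.s_succ] at hp
  have hpL : p / D.s j < 2 * D.L j := by
    rw [Nat.div_lt_iff_lt_mul (by omega)]
    calc p < 2 * (D.L j * D.s j) := hp
      _ = _ := by ring
  have hξ : p / D.s j * D.t (j + 1) + τ < D.f j / 2 := by
    calc p / D.s j * D.t (j + 1) + τ < p / D.s j * D.t (j + 1) + D.t (j + 1) := by omega
      _ = (p / D.s j + 1) * D.t (j + 1) := by ring
      _ ≤ (2 * D.L j) * D.t (j + 1) := Nat.mul_le_mul_right _ hpL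
      _ ≤ _ := hsup
  have hx1 : bb D j + (p / D.s j * D.t (j + 1) + τ) < D.f j := by unfold bb; omega
  obtain ⟨P, hP1, hP2⟩ := hbig a (by omega) (bb D j + (p / D.s j * D.t (j + 1) + τ)) (by omega)
  obtain ⟨Q, hQ1, hQ2⟩ := hbig (a + 2) (by omega) (p % D.s j) (Nat.mod_lt _ (by omega))
  obtain ⟨S, v, hvS, hS, hv, hS'⟩ := pick r hr P Q (by
      rw [Finset.disjoint_left]
      intro v h1 h2
      have h3 := (hP2 v h1).1
      have h4 := (hQ2 v h2).1
      omega) hP1 hQ1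
  refine ⟨S, v, hvS, hS, Or.inr ⟨j, rfl, hj, _, Nat.le_add_right _ _, hx1,
    fun u hu huv => hP2 u (hS' u hu huv), (hQ2 v hv).1, ?_⟩⟩
  rw [(hQ2 v hv).2, row_eq D j p τ hτ]

theorem rows_wt (r n : ℕ) (E : Finset V → Prop) (z : V → ℕ) (c : ℕ → V → ℕ)
    (hP : ∀ (S : Finset V) (w : V) (hw : w ∉ S), S.card + 1 = r → E (Finset.cons w S hw) →
      Ok D n z c S w)
    (B : ℕ) (hB : ∀ S : Finset V, S.card + 1 = r → B ≤ codeg E S) (j : ℕ)
    (hrows : Rows D r n z c j) (a : ℕ) (ha : a < 2) (p : ℕ) (hp : p < 2 * D.s j) :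
    ((2 * D.s j : ℝ) - 1) * ((B : ℝ) - wt D z c j a p) ≤
      ((D.A j : ℝ) - 1) * (∑ k ∈ range (2 * D.s j), (wt D z c j a k : ℝ) - wt D z c j a p) := by
  classical
  apply D.N_main j (fun k => (wt D z c j a k : ℝ)) (B : ℝ) p hp
  intro τ hτ
  obtain ⟨S, v, hv, hS, hreq⟩ := hrows a ha p hp τ hτ
  have h1 : codeg E S ≤ (univ.filter (fun w => phi (D.s j) a (z w) (c j w) ∈ D.N j p τ)).card := by
    apply codeg_le
    intro w hw hE
    rw [mem_filter]
    exact ⟨mem_univ _, (hP S w hw hS hE).2 v hv a ha j _ hreq⟩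
  have h2 := card_phi D z c j a (D.N j p τ)
    (univ.filter (fun w => phi (D.s j) a (z w) (c j w) ∈ D.N j p τ)) (by
      intro w hw
      rw [mem_filter] at hw
      exact hw.2)
  have h3 : B ≤ ∑ k ∈ D.N j p τ, wt D z c j a k := (hB S hS).trans (h1.trans h2)
  have h4 : (B : ℝ) ≤ ((∑ k ∈ D.N j p τ, wt D z c j a k : ℕ) : ℝ) := by exact_mod_cast h3
  rwa [Nat.cast_sum] at h4

/-- main numeric step: all subparts are large. -/
theorem sub_big (r n : ℕ) (E : Finset V → Prop) (z : V → ℕ) (c : ℕ → V → ℕ)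
    (hz : ∀ v, z v < nP D) (hc : ∀ j v, c j v < D.s j)
    (hP : ∀ (S : Finset V) (w : V) (hw : w ∉ S), S.card + 1 = r → E (Finset.cons w S hw) →
      Ok D n z c S w)
    (B : ℕ) (hB : ∀ S : Finset V, S.card + 1 = r → B ≤ codeg E S)
    (hBq : ∀ q, q < nP D → B ≤ cnt z q) (hrB : r ≤ B)
    (hkey : (Fintype.card V : ℝ) < (B - r) * (4 * D.mu + y)) (j : ℕ)
    (hrows : Rows D r n z c j) (a : ℕ) (ha : a < 2) (p : ℕ) (hp : p < 2 * D.s j) :
    r ≤ wt D z c j a p := by
  by_contra hcon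
  push Not at hcon
  have hs := D.s1 j
  have hA := D.A2 j
  have h1 := rows_wt D r n E z c hP B hB j hrows a ha p hp
  have h2 := N_sum D j (fun k => (wt D z c j (1 - a) k : ℝ)) B (fun p hp =>
    rows_wt D r n E z c hP B hB j hrows (1 - a) (by omega) p hp)
  rw [← Nat.cast_sum, wt_sum D z c hc j a ha] at h1
  rw [← Nat.cast_sum, wt_sum D z c hc j (1 - a) (by omega)] at h2
  have h3 := total D z hz B hBq
  have hnum := num_key D j
  have hy := D.y32
  have hs' : (1 : ℝ) ≤ D.s j := by exact_mod_cast hs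
  have hA' : (2 : ℝ) ≤ D.A j := by exact_mod_cast hA
  have hω : (wt D z c j a p : ℝ) ≤ r := by exact_mod_cast hcon.le
  have hω0 : (0 : ℝ) ≤ (wt D z c j a p : ℝ) := Nat.cast_nonneg _
  have hrB' : (r : ℝ) ≤ B := by exact_mod_cast hrB
  have hr0 : (0 : ℝ) ≤ (r : ℝ) := Nat.cast_nonneg _
  have hmu0 : (0 : ℝ) ≤ (D.mu : ℝ) := Nat.cast_nonneg _
  have h4 : (cnt z (a + 1) + cnt z ((a + 3) % 4)) + (cnt z (1 - a + 1) + cnt z ((1 - a + 3) % 4))
      + 4 * D.mu * B ≤ Fintype.card V := by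
    have ha' : a = 0 ∨ a = 1 := by omega
    rcases ha' with rfl | rfl
    · simp only [Nat.zero_add, Nat.sub_zero] at h3 ⊢
      norm_num at h3 ⊢
      omega
    · simp only [Nat.sub_self, Nat.zero_add] at h3 ⊢
      norm_num at h3 ⊢
      omega
  have h4' : (((cnt z (a + 1) + cnt z ((a + 3) % 4) : ℕ) : ℝ))
      + ((cnt z (1 - a + 1) + cnt z ((1 - a + 3) % 4) : ℕ) : ℝ)
      + 4 * D.mu * B ≤ Fintype.card V := by exact_mod_cast h4
  generalize ((cnt z (a + 1) + cnt z ((a + 3) % 4) : ℕ) : ℝ) = Sa at *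
  generalize ((cnt z (1 - a + 1) + cnt z ((1 - a + 3) % 4) : ℕ) : ℝ) = Sb at *
  generalize (wt D z c j a p : ℝ) = ω at *
  generalize (D.A j : ℝ) = A at *
  generalize (D.s j : ℝ) = s at *
  generalize (Fintype.card V : ℝ) = M at *
  generalize (D.mu : ℝ) = μ at *
  obtain ⟨X, hX⟩ : ∃ X : ℝ, X = B - r := ⟨_, rfl⟩
  have hX0 : 0 ≤ X := by linarith
  rw [← hX] at hkey
  have e1 : (2 * s - 1) * X ≤ (A - 1) * Sa := by
    have f1 : (2 * s - 1) * X ≤ (2 * s - 1) * (B - ω) :=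
      mul_le_mul_of_nonneg_left (by linarith) (by linarith)
    have f2 : (A - 1) * (Sa - ω) ≤ (A - 1) * Sa :=
      mul_le_mul_of_nonneg_left (by linarith) (by linarith)
    linarith
  have e2 : 2 * s * X ≤ A * Sb := by
    have f1 : 2 * s * X ≤ 2 * s * B := mul_le_mul_of_nonneg_left (by linarith) (by linarith)
    linarith
  have e3 : (A * (A - 1)) * (X * y) ≤ (A * (A - 1)) * (Sa + Sb) := by
    have f1 : A * ((2 * s - 1) * X) ≤ A * ((A - 1) * Sa) :=
      mul_le_mul_of_nonneg_left e1 (by linarith)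
    have f2 : (A - 1) * (2 * s * X) ≤ (A - 1) * (A * Sb) :=
      mul_le_mul_of_nonneg_left e2 (by linarith)
    have f3 : y * (A * (A - 1)) * X ≤ ((2 * s - 1) * A + 2 * s * (A - 1)) * X :=
      mul_le_mul_of_nonneg_right hnum hX0
    nlinarith
  have e4 : X * y ≤ Sa + Sb := by
    have : 0 < A * (A - 1) := mul_pos (by linarith) (by linarith)
    exact le_of_mul_le_mul_left e3 this
  have e5 : 4 * μ * X ≤ 4 * μ * B := mul_le_mul_of_nonneg_left (by linarith) (by linarith)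
  nlinarith

theorem sub_big' (r : ℕ) (z : V → ℕ) (c : ℕ → V → ℕ)
    (hc : ∀ j v, c j v < D.s j) (j : ℕ)
    (h : ∀ a, a < 2 → ∀ p, p < 2 * D.s j → r ≤ wt D z c j a p) :
    ∀ q, q < 4 → ∀ x, x < D.s j → ∃ T : Finset V, r ≤ T.card ∧ ∀ v ∈ T, z v = q ∧ c j v = x := by
  classical
  intro q hq x hx
  obtain ⟨a, p, ha, hp, hap⟩ : ∃ a p : ℕ, a < 2 ∧ p < 2 * D.s j ∧
      ∀ zv cv : ℕ, cv < D.s j → phi (D.s j) a zv cv = p → zv = q ∧ cv = x := by
    have hq4 : q = 0 ∨ q = 1 ∨ q = 2 ∨ q = 3 := by omega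
    rcases hq4 with rfl | rfl | rfl | rfl
    · refine ⟨1, D.s j + x, by omega, by omega, ?_⟩
      intro zv cv hcv h
      unfold phi at h
      split_ifs at h with h1 h2
      · omega
      · norm_num at h2
        omega
      · omega
    · refine ⟨0, x, by omega, by omega, ?_⟩
      intro zv cv hcv h
      unfold phi at h
      split_ifs at h with h1 h2
      · omega
      · omega
      · omega
    · refine ⟨1, x, by omega, by omega, ?_⟩
      intro zv cv hcv h
      unfold phi at h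
      split_ifs at h with h1 h2
      · omega
      · omega
      · omega
    · refine ⟨0, D.s j + x, by omega, by omega, ?_⟩
      intro zv cv hcv h
      unfold phi at h
      split_ifs at h with h1 h2
      · omega
      · omega
      · omega
  refine ⟨univ.filter (fun v => phi (D.s j) a (z v) (c j v) = p), ?_, ?_⟩
  · have := h a ha p hp
    unfold wt at this
    convert this
  · intro v hv
    rw [mem_filter] at hv
    exact hap _ _ (hc j v) hv.2

/-- The upper bound at level `n`. -/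
theorem pat_upper (r n : ℕ) (hr : 3 ≤ r) (E : Finset V → Prop) (hE : Pat D r n V E)
    (B : ℕ) (hB : ∀ S : Finset V, S.card + 1 = r → B ≤ codeg E S)
    (hbig : nP D * r < Fintype.card V) (hrB : r ≤ B)
    (hkey : (Fintype.card V : ℝ) < (B - r) * (4 * D.mu + y)) :
    B * (4 * D.mu * D.A n + 4 * D.s n) ≤ D.A n * Fintype.card V := by
  obtain ⟨z, c, hz, hc, hP⟩ := hE
  have hBq := parts_big D r n hr E z c hz hP B hB hrB hbig
  have hrows : ∀ j, j ≤ n → Rows D r n z c j := by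
    intro j
    induction j with
    | zero => intro _; exact rows_zero D r n hr z c (fun q hq => hrB.trans (hBq q hq))
    | succ j ih =>
      intro hj
      apply rows_succ D r n j (by omega) hr z c
      apply sub_big' D r z c hc j
      intro a ha p hp
      exact sub_big D r n E z c hz hc hP B hB hBq hrB hkey j (ih (by omega)) a ha p hp
  have h1 : ∀ a, a < 2 → 2 * D.s n * B ≤ D.A n * (cnt z (a + 1) + cnt z ((a + 3) % 4)) := by
    intro a ha
    have h2 := N_sum D n (fun k => (wt D z c n a k : ℝ)) B (fun p hp =>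
      rows_wt D r n E z c hP B hB n (hrows n le_rfl) a ha p hp)
    rw [← Nat.cast_sum, wt_sum D z c hc n a ha] at h2
    exact_mod_cast h2
  have h2 := h1 0 (by norm_num)
  have h3 := h1 1 (by norm_num)
  norm_num at h2 h3
  have h4 := total D z hz B hBq
  have h5 : D.A n * (cnt z 0 + cnt z 1 + cnt z 2 + cnt z 3 + 4 * D.mu * B)
      ≤ D.A n * Fintype.card V := Nat.mul_le_mul_left _ h4
  nlinarith

end

end Pool.Agent.W494.CD
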