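import Pool.Agent.W494.CD.Low2
import Pool.Agent.W494.CD.Upper2
set_option autoImplicit false
namespace Pool.Agent.W494.CD
open Finset

section
variable {y : ℝ} (D : Dat y)

theorem s_gt (n : ℕ) : n < D.s n := by
  induction n with
  | zero => exact D.s1 0
  | succ n ih =>
    rw [D.s_succ]
    have := D.L4 n
    nlinarith

theorem TT_gt (n : ℕ) : n < TT D n := by
  have := s_gt D n
  unfold TT
  omega

def lev (M : ℕ) : ℕ := Nat.findGreatest (fun n => TT D n ^ 2 ≤ M) M

theorem lev_mono (M M' : ℕ) (h : M ≤ M') : lev D M ≤ lev D M' := by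
  unfold lev
  exact Nat.findGreatest_mono (fun n hn => le_trans hn h) h

theorem lev_spec (M : ℕ) (h : TT D 0 ^ 2 ≤ M) : TT D (lev D M) ^ 2 ≤ M := by
  unfold lev
  exact @Nat.findGreatest_spec 0 (fun n => TT D n ^ 2 ≤ M) _ M (Nat.zero_le _) h

theorem le_lev (M n : ℕ) (h : TT D n ^ 2 ≤ M) : n ≤ lev D M := by
  unfold lev
  have h2 : n ≤ M := by
    have := TT_gt D n
    nlinarith
  exact Nat.le_findGreatest (P := fun n => TT D n ^ 2 ≤ M) h2 h

theorem hasDens_small (r : ℕ) (hr : 3 ≤ r) : HasDens r (1 / (4 * D.mu + y)) := by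
  have hy := D.y32
  have hmu0 : (0 : ℝ) ≤ (D.mu : ℝ) := Nat.cast_nonneg _
  have hden : 0 < 4 * (D.mu : ℝ) + y := by linarith
  set d : ℝ := 1 / (4 * D.mu + y) with hd
  have hd0 : 0 < d := by rw [hd]; positivity
  have hdd : d * (4 * D.mu + y) = 1 := by rw [hd]; field_simp
  refine ⟨fun V E => Pat D r (lev D (Nat.card V)) V E, ?_, ?_, ?_⟩
  · intro V W _ _ g E E' h hW
    refine pat_mono D r _ _ (lev_mono D _ _ ?_) V W g E E' h hW
    exact Nat.card_le_card_of_injective g g.injective
  · intro ε hε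
    refine ⟨TT D 0 ^ 2 + ⌈4 / ε ^ 2⌉₊ + ⌈2 * r / ε⌉₊ + 1, fun V _ hV => ?_⟩
    obtain ⟨E, hE, hE2⟩ := pat_lower D r (lev D (Nat.card V)) hr V
    refine ⟨E, hE, ?_⟩
    intro S hS
    have h1 := hE2 S hS
    rw [Nat.card_eq_fintype_card] at h1
    set M := Fintype.card V with hM
    set n := lev D M with hn
    have h2 : TT D n ^ 2 ≤ M := lev_spec D M (by omega)
    have hTpos : 0 < TT D n := (Nat.zero_le n).trans_lt (TT_gt D n)
    have hT' : (0 : ℝ) < TT D n := by exact_mod_cast hTpos
    have hAT : D.A n ≤ TT D n := by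
      have := D.A_le n
      unfold TT; omega
    have hM1 : (4 / ε ^ 2 : ℝ) < M := by
      have e1 : ⌈4 / ε ^ 2⌉₊ + 1 ≤ M := by omega
      have e2 : ((⌈4 / ε ^ 2⌉₊ : ℕ) : ℝ) + 1 ≤ M := by exact_mod_cast e1
      have e3 := Nat.le_ceil (4 / ε ^ 2)
      linarith
    have hM2 : (2 * r / ε : ℝ) < M := by
      have e1 : ⌈2 * r / ε⌉₊ + 1 ≤ M := by omega
      have e2 : ((⌈2 * r / ε⌉₊ : ℕ) : ℝ) + 1 ≤ M := by exact_mod_cast e1
      have e3 := Nat.le_ceil (2 * r / ε)
      linarith
    rw [div_lt_iff₀ (by positivity)] at hM1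
    rw [div_lt_iff₀ hε] at hM2
    have hM0 : (0 : ℝ) < M := by
      by_contra hc
      push Not at hc
      nlinarith [mul_nonneg hε.le hε.le]
    -- A n ≤ ε M / 2
    have hA2 : (D.A n : ℝ) ^ 2 ≤ M := by
      have : D.A n ^ 2 ≤ M := le_trans (Nat.pow_le_pow_left hAT 2) h2
      exact_mod_cast this
    have hA3 : (D.A n : ℝ) ≤ ε * M / 2 := by
      by_contra hc
      push Not at hc
      have e1 : (ε * M / 2) ^ 2 < (D.A n : ℝ) ^ 2 := by
        apply pow_lt_pow_left₀ hc (by positivity) (by norm_num)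
      have e2 : (ε * M / 2) ^ 2 < M := e1.trans_le hA2
      have e3 : (ε * M / 2) ^ 2 = (M * ε ^ 2) * M / 4 := by ring
      rw [e3] at e2
      nlinarith
    -- A (4 mu + y) ≥ T
    have hAd : d * (TT D n : ℝ) ≤ D.A n := by
      have e1 := (D.etaPos n).le
      have e2 : (TT D n : ℝ) ≤ (4 * D.mu + y) * D.A n := by
        unfold TT; push_cast; linarith
      calc d * (TT D n : ℝ) ≤ d * ((4 * D.mu + y) * D.A n) := mul_le_mul_of_nonneg_left e2 hd0.le
        _ = D.A n := by rw [← mul_assoc, hdd, one_mul]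
    have hdiv : (M : ℝ) ≤ TT D n * ((M / TT D n : ℕ) + 1) := by
      have e1 := Nat.div_add_mod M (TT D n)
      have e2 := Nat.mod_lt M hTpos
      have e3 : M ≤ TT D n * (M / TT D n + 1) := by
        rw [Nat.mul_add]; omega
      exact_mod_cast e3
    have h1' : (D.A n : ℝ) * ((M / TT D n : ℕ) : ℝ) ≤ codeg E S + r := by exact_mod_cast h1
    generalize ((M / TT D n : ℕ) : ℝ) = Q at *
    -- d M ≤ d T (Q+1) ≤ A (Q + 1)
    have hQ : 0 ≤ Q + 1 := by
      by_contra hc
      push Not at hc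
      nlinarith
    have e1 : d * M ≤ D.A n * (Q + 1) := by
      calc d * M ≤ d * (TT D n * (Q + 1)) := mul_le_mul_of_nonneg_left hdiv hd0.le
        _ = (d * TT D n) * (Q + 1) := by ring
        _ ≤ _ := mul_le_mul_of_nonneg_right hAd hQ
    have e2 : D.A n * (Q + 1) = D.A n * Q + D.A n := by ring
    nlinarith
  · intro ε hε
    obtain ⟨n0, hn0⟩ := exists_nat_gt (d * y / (4 * ε))
    refine ⟨TT D n0 ^ 2 + nP D * r + ⌈(r : ℝ) / ε⌉₊ + 1, fun V _ hV E hE => ?_⟩
    simp only [Nat.card_eq_fintype_card] at hE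
    by_contra hcon
    push Not at hcon
    set M := Fintype.card V with hM
    have hM2 : (r : ℝ) / ε < M := by
      have e1 : ⌈(r : ℝ) / ε⌉₊ + 1 ≤ M := by omega
      have e2 : ((⌈(r : ℝ) / ε⌉₊ : ℕ) : ℝ) + 1 ≤ M := by exact_mod_cast e1
      have e3 := Nat.le_ceil ((r : ℝ) / ε)
      linarith
    rw [div_lt_iff₀ hε] at hM2
    have hr0 : (0 : ℝ) < r := by
      have : 0 < r := by omega
      exact_mod_cast this
    have hM0 : (0 : ℝ) < M := by
      by_contra hc
      push Not at hc
      nlinarith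
    set B := ⌊(d + ε) * M⌋₊ + 1 with hBdef
    have hB1 : (d + ε) * M < B := by
      rw [hBdef]; push_cast; exact Nat.lt_floor_add_one _
    have hB : ∀ S : Finset V, S.card + 1 = r → B ≤ codeg E S := by
      intro S hS
      have := hcon S hS
      rw [hBdef]
      exact (Nat.floor_lt (by positivity)).mpr this
    have hBr : (r : ℝ) < B := by
      have : 0 < d * M := by positivity
      linarith
    have hkey : (M : ℝ) < (B - r) * (4 * D.mu + y) := by
      have e1 : d * M < B - r := by linarith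
      have e2 : d * M * (4 * D.mu + y) < (B - r) * (4 * D.mu + y) :=
        mul_lt_mul_of_pos_right e1 hden
      have e3 : d * M * (4 * D.mu + y) = M := by
        calc d * M * (4 * D.mu + y) = (d * (4 * D.mu + y)) * M := by ring
          _ = M := by rw [hdd, one_mul]
      linarith
    have hup := pat_upper D r (lev D M) hr E hE B hB (by omega)
      (by have : r < B := by exact_mod_cast hBr
          omega) hkey
    have hlev : n0 ≤ lev D M := le_lev D M n0 (by omega)
    set n := lev D M with hn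
    have hTn : (n0 : ℝ) < TT D n := by
      have := TT_gt D n
      have h2 : n0 < TT D n := by omega
      exact_mod_cast h2
    have hup' : (B : ℝ) * (TT D n : ℝ) ≤ D.A n * M := by
      have : B * TT D n ≤ D.A n * M := by unfold TT; exact hup
      exact_mod_cast this
    have hT0 : (0 : ℝ) < TT D n := lt_of_le_of_lt (Nat.cast_nonneg _) hTn
    have e1 : (d + ε) * M * TT D n < D.A n * M := by
      calc (d + ε) * M * TT D n < B * TT D n := mul_lt_mul_of_pos_right hB1 hT0
        _ ≤ _ := hup'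
    have e2 : (d + ε) * TT D n < D.A n := by
      have : M * ((d + ε) * TT D n) < M * D.A n := by linarith
      exact lt_of_mul_lt_mul_left this hM0.le
    have e3 : (D.A n : ℝ) ≤ d * TT D n + d * (y / 4) := by
      have f1 := D.etaLe n
      have f2 : (4 * D.mu + y) * D.A n ≤ TT D n + y / 4 := by
        unfold TT; push_cast; linarith
      calc (D.A n : ℝ) = d * ((4 * D.mu + y) * D.A n) := by rw [← mul_assoc, hdd, one_mul]
        _ ≤ d * (TT D n + y / 4) := mul_le_mul_of_nonneg_left f2 hd0.le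
        _ = _ := by ring
    have e4 : ε * TT D n < d * (y / 4) := by linarith
    rw [div_lt_iff₀ (by positivity)] at hn0
    nlinarith

end

end Pool.Agent.W494.CD
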