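import Mathlib
set_option autoImplicit false
namespace Pool.Agent.W494.CD
open Finset

/-- codegree of `S` in the hypergraph `E` -/
noncomputable def codeg {V : Type} (E : Finset V → Prop) (S : Finset V) : ℕ :=
  Set.ncard {w | ∃ hw : w ∉ S, E (Finset.cons w S hw)}

theorem codeg_le {V : Type} [Fintype V] (E : Finset V → Prop) (S T : Finset V)
    (h : ∀ w (hw : w ∉ S), E (Finset.cons w S hw) → w ∈ T) : codeg E S ≤ T.card := by
  unfold codeg
  rw [← Set.ncard_coe_finset T]
  apply Set.ncard_le_ncard _ (Set.toFinite _)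
  rintro w ⟨hw, hE⟩
  exact h w hw hE

theorem le_codeg {V : Type} [Fintype V] (E : Finset V → Prop) (S T : Finset V)
    (h : ∀ w (hw : w ∉ S), w ∈ T → E (Finset.cons w S hw)) : T.card ≤ codeg E S + S.card := by
  unfold codeg
  rw [← Set.ncard_coe_finset T, ← Set.ncard_coe_finset S]
  refine le_trans (Set.ncard_le_ncard ?_ (Set.toFinite _)) (Set.ncard_union_le _ _)
  intro w hw
  by_cases hS : w ∈ S
  · right; exact hS
  · left; exact ⟨hS, h w hS hw⟩

/-- `d` is the codegree density of a monotone class -/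
def HasDens (r : ℕ) (d : ℝ) : Prop :=
  ∃ K : ∀ V : Type, (Finset V → Prop) → Prop,
    (∀ (V W : Type) [Fintype V] [Fintype W] (g : V ↪ W) (E : Finset V → Prop)
      (E' : Finset W → Prop),
      (∀ e, e.card = r → E e → E' (e.map g)) → K W E' → K V E) ∧
    (∀ ε : ℝ, 0 < ε → ∃ N : ℕ, ∀ (V : Type) [Fintype V], N ≤ Fintype.card V →
      ∃ E, K V E ∧ ∀ S : Finset V, S.card + 1 = r → (d - ε) * Fintype.card V ≤ codeg E S) ∧
    (∀ ε : ℝ, 0 < ε → ∃ N : ℕ, ∀ (V : Type) [Fintype V], N ≤ Fintype.card V →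
      ∀ E, K V E → ∃ S : Finset V, S.card + 1 = r ∧
        (codeg E S : ℝ) ≤ (d + ε) * Fintype.card V)

theorem hasDens_zero (r : ℕ) (hr : 1 ≤ r) : HasDens r 0 := by
  refine ⟨fun V E => ∀ e : Finset V, e.card = r → ¬ E e, ?_, ?_, ?_⟩
  · intro V W _ _ g E E' h hK e he hE
    exact hK (e.map g) (by rw [card_map, he]) (h e he hE)
  · intro ε hε
    refine ⟨0, fun V _ _ => ⟨fun _ => False, fun _ _ h => h, ?_⟩⟩
    intro S _
    have : (0 : ℝ) ≤ ε * Fintype.card V := by positivity
    have h2 : (0 : ℝ) ≤ codeg (fun _ : Finset V => False) S := Nat.cast_nonneg _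
    linarith
  · intro ε hε
    refine ⟨r, fun V _ hN E hE => ?_⟩
    obtain ⟨S, hS⟩ : ∃ S : Finset V, S.card = r - 1 := by
      have := Finset.exists_subset_card_eq (s := (univ : Finset V)) (n := r - 1)
        (by rw [card_univ]; omega)
      obtain ⟨t, -, ht⟩ := this
      exact ⟨t, ht⟩
    refine ⟨S, by omega, ?_⟩
    have h1 : codeg E S ≤ (∅ : Finset V).card := by
      apply codeg_le
      intro w hw h
      exact absurd h (hE _ (by rw [card_cons]; omega))
    simp only [card_empty, Nat.le_zero] at h1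
    rw [h1]
    simp only [Nat.cast_zero]
    positivity

end Pool.Agent.W494.CD
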