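import Pool.Agent.W494.CD.Design
set_option autoImplicit false
namespace Pool.Agent.W494.CD
open Finset

/-- All the numbers and designs used in the construction. -/
structure Dat (y : ℝ) where
  mu : ℕ
  s : ℕ → ℕ
  A : ℕ → ℕ
  L : ℕ → ℕ
  f : ℕ → ℕ
  t : ℕ → ℕ
  N : ℕ → ℕ → ℕ → Finset ℕ
  y32 : 32 ≤ y
  s_succ : ∀ j, s (j + 1) = L j * s j
  L4 : ∀ j, 4 ≤ L j
  s1 : ∀ j, 1 ≤ s j
  f_succ : ∀ j, f (j + 1) = L j * (f j - f j / 2)
  f_le : ∀ j, f j ≤ s j
  A2 : ∀ j, 2 ≤ A j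
  etaPos : ∀ j, 4 * (s j : ℝ) < y * A j
  etaLe : ∀ j, y * (A j : ℝ) ≤ 4 * s j + y / 4
  A_succ : ∀ j, A (j + 1) ≤ L j * A j
  A_le : ∀ j, A j ≤ s j
  t_pos : ∀ j, 0 < t j
  supply : ∀ j, 2 * L j * t (j + 1) ≤ f j / 2
  mu_s : 2 * s 0 ≤ mu
  mu_t : t 0 ≤ mu
  N_sub : ∀ j p τ, N j p τ ⊆ range (2 * s j)
  N_card : ∀ j p τ, (N j p τ).card = A j
  N_main : ∀ j (w : ℕ → ℝ) (δ : ℝ) (p : ℕ), p < 2 * s j →
      (∀ τ, τ < t j → δ ≤ ∑ k ∈ N j p τ, w k) →
      ((2 * s j : ℝ) - 1) * (δ - w p) ≤ ((A j : ℝ) - 1) * (∑ k ∈ range (2 * s j), w k - w p)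

theorem step_num (q : ℝ) (hq : 0 ≤ q) (s A : ℕ) (h0 : 0 < (A : ℝ) - q * s)
    (h1 : (A : ℝ) - q * s ≤ 1 / 4) :
    ∃ L A' : ℕ, 4 ≤ L ∧ L ≤ 16 ∧ 0 < (A' : ℝ) - q * ((L * s : ℕ) : ℝ) ∧
      (A' : ℝ) - q * ((L * s : ℕ) : ℝ) ≤ 1 / 4 ∧ A' ≤ L * A := by
  rcases le_or_gt ((A : ℝ) - q * s) (1 / 16) with h | h
  · refine ⟨4, 4 * A, le_refl _, by norm_num, ?_, ?_, le_refl _⟩
    · push_cast; linarith
    · push_cast; linarith
  · set η : ℝ := (A : ℝ) - q * s with hη
    have hA : q * s = A - η := by rw [hη]; ring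
    set a := ⌊1 / η⌋₊ with ha
    have ha1 : (a : ℝ) ≤ 1 / η := Nat.floor_le (by positivity)
    have ha2 : 1 / η < a + 1 := Nat.lt_floor_add_one _
    have ha3 : (a : ℝ) * η ≤ 1 := by rwa [le_div_iff₀ h0] at ha1
    have ha4 : 1 < ((a : ℝ) + 1) * η := by rwa [div_lt_iff₀ h0] at ha2
    have ha5 : a < 16 := by
      have : (a : ℝ) < 16 := by
        by_contra hc
        push Not at hc
        nlinarith
      exact_mod_cast this
    have ha6 : 4 ≤ a := by
      have : (3 : ℝ) < a := by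
        by_contra hc
        push Not at hc
        nlinarith
      exact_mod_cast this
    have hApos : 1 ≤ A := by
      have h2 : (0 : ℝ) < A := by
        have : 0 ≤ q * (s : ℝ) := by positivity
        linarith
      exact_mod_cast h2
    refine ⟨a + 1, (a + 1) * A - 1, by omega, by omega, ?_, ?_, Nat.sub_le _ _⟩
    · have : 1 ≤ (a + 1) * A := Nat.one_le_iff_ne_zero.mpr (by positivity)
      rw [Nat.cast_sub this]
      push_cast
      have : q * (((a : ℝ) + 1) * s) = (a + 1) * (A - η) := by rw [← hA]; ring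
      rw [this]; nlinarith
    · have : 1 ≤ (a + 1) * A := Nat.one_le_iff_ne_zero.mpr (by positivity)
      rw [Nat.cast_sub this]
      push_cast
      have : q * (((a : ℝ) + 1) * s) = (a + 1) * (A - η) := by rw [← hA]; ring
      rw [this]; nlinarith

theorem supply_num (s f L t : ℕ) (hs : 1 ≤ s) (hK : 2000000000 * s ≤ f * f) (h16 : L ≤ 16)
    (h4 : 4 ≤ L) (ht : t ≤ 34 * (Nat.sqrt (2 * (L * s) - 1) + 1)) : 2 * L * t ≤ f / 2 := by
  set g := Nat.sqrt (2 * (L * s) - 1) with hg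
  have h1 : g * g ≤ 2 * (L * s) - 1 := Nat.sqrt_le _
  have h2 : L * s ≤ 16 * s := Nat.mul_le_mul_right _ h16
  have h3 : g * g ≤ 32 * s := by omega
  have h5 : 2 * L * t ≤ 1088 * (g + 1) := by
    calc 2 * L * t ≤ 32 * t := Nat.mul_le_mul_right _ (by omega)
      _ ≤ 32 * (34 * (g + 1)) := Nat.mul_le_mul_left _ ht
      _ = _ := by ring
  have h6 : 2176 * (g + 1) ≤ f := by
    by_contra hc
    have hc' : f ≤ 2176 * (g + 1) := by omega
    have h7 := Nat.mul_le_mul hc' hc'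
    nlinarith [sq_nonneg (g : ℤ)]
  omega

theorem seqs (q : ℝ) (hq : 0 ≤ q) (s0 A0 : ℕ) (hs0 : 2000000000 ≤ s0)
    (h0 : 0 < (A0 : ℝ) - q * s0) (h1 : (A0 : ℝ) - q * s0 ≤ 1 / 4) :
    ∃ s A L f : ℕ → ℕ, s 0 = s0 ∧ (∀ j, s (j + 1) = L j * s j) ∧ (∀ j, 4 ≤ L j) ∧ (∀ j, L j ≤ 16) ∧
      (∀ j, 2000000000 ≤ s j) ∧ (∀ j, f (j + 1) = L j * (f j - f j / 2)) ∧ (∀ j, f j ≤ s j) ∧
      (∀ j, 2000000000 * s j ≤ f j * f j) ∧ (∀ j, 0 < (A j : ℝ) - q * s j) ∧
      (∀ j, (A j : ℝ) - q * s j ≤ 1 / 4) ∧ (∀ j, A (j + 1) ≤ L j * A j) := by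
  have step : ∀ x : {x : ℕ × ℕ // 0 < (x.2 : ℝ) - q * x.1 ∧ (x.2 : ℝ) - q * x.1 ≤ 1 / 4},
      ∃ L A' : ℕ, 4 ≤ L ∧ L ≤ 16 ∧ (0 < (A' : ℝ) - q * ((L * x.1.1 : ℕ) : ℝ) ∧
      (A' : ℝ) - q * ((L * x.1.1 : ℕ) : ℝ) ≤ 1 / 4) ∧ A' ≤ L * x.1.2 := by
    rintro ⟨⟨s, A⟩, h0, h1⟩
    obtain ⟨L, A', a, b, c, d, e⟩ := step_num q hq s A h0 h1
    exact ⟨L, A', a, b, ⟨c, d⟩, e⟩
  choose Lf Af hstep using step
  let st : ℕ → {x : ℕ × ℕ // 0 < (x.2 : ℝ) - q * x.1 ∧ (x.2 : ℝ) - q * x.1 ≤ 1 / 4} :=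
    fun n => Nat.rec ⟨(s0, A0), h0, h1⟩ (fun _ x => ⟨(Lf x * x.1.1, Af x), (hstep x).2.2.1⟩) n
  have st_succ : ∀ j, st (j + 1) = ⟨(Lf (st j) * (st j).1.1, Af (st j)), (hstep (st j)).2.2.1⟩ :=
    fun j => rfl
  let f : ℕ → ℕ := fun n => Nat.rec s0 (fun j x => Lf (st j) * (x - x / 2)) n
  have f_succ : ∀ j, f (j + 1) = Lf (st j) * (f j - f j / 2) := fun j => rfl
  have s_succ : ∀ j, (st (j + 1)).1.1 = Lf (st j) * (st j).1.1 := fun j => rfl
  refine ⟨fun j => (st j).1.1, fun j => (st j).1.2, fun j => Lf (st j), f, rfl, s_succ,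
    fun j => (hstep (st j)).1, fun j => (hstep (st j)).2.1, ?_, f_succ, ?_, ?_,
    fun j => (st j).2.1, fun j => (st j).2.2, fun j => (hstep (st j)).2.2.2⟩
  · intro j
    induction j with
    | zero => exact hs0
    | succ j ih =>
      simp only [s_succ]
      have := (hstep (st j)).1
      nlinarith
  · intro j
    induction j with
    | zero => exact le_refl _
    | succ j ih =>
      simp only [s_succ, f_succ]
      exact Nat.mul_le_mul_left _ ((Nat.sub_le _ _).trans ih)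
  · intro j
    induction j with
    | zero => exact Nat.mul_le_mul_right _ hs0
    | succ j ih =>
      simp only [s_succ, f_succ]
      have hL := (hstep (st j)).1
      set L := Lf (st j)
      set S := (st j).1.1
      simp only at ih
      have h2 : f j ≤ 2 * (f j - f j / 2) := by omega
      set b := f j - f j / 2
      have h3 := Nat.mul_le_mul h2 h2
      calc 2000000000 * (L * S) = L * (2000000000 * S) := by ring
        _ ≤ L * (f j * f j) := Nat.mul_le_mul_left _ ih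
        _ ≤ L * (2 * b * (2 * b)) := Nat.mul_le_mul_left _ h3
        _ = L * b * (4 * b) := by ring
        _ ≤ L * b * (L * b) := Nat.mul_le_mul_left _ (Nat.mul_le_mul_right _ hL)

theorem exists_dat (d : ℝ) (hd0 : 0 < d) (hd1 : d ≤ 1 / 20000000000) :
    ∃ (y : ℝ) (D : Dat y), d = 1 / (4 * D.mu + y) := by
  have hinv : (20000000000 : ℝ) ≤ 1 / d := by
    rw [le_div_iff₀ hd0]; rw [le_div_iff₀ (by norm_num)] at hd1; linarith
  set μ := ⌊(1 / d - 32) / 4⌋₊ with hμ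
  have hμ1 : (μ : ℝ) ≤ (1 / d - 32) / 4 := Nat.floor_le (by linarith)
  have hμ2 : (1 / d - 32) / 4 < μ + 1 := Nat.lt_floor_add_one _
  set y : ℝ := 1 / d - 4 * μ with hy
  have hy1 : 32 ≤ y := by linarith
  have hy2 : y < 36 := by linarith
  have hμ3 : 4500000000 ≤ μ := by
    have : (4500000000 : ℝ) < μ + 1 := by linarith
    have : 4500000000 < μ + 1 := by exact_mod_cast this
    omega
  have hy0 : 0 < y := by linarith
  set q : ℝ := 4 / y with hq
  have hqy : q * y = 4 := by rw [hq]; field_simp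
  have hq1 : 1 / 9 < q := by
    rw [hq, div_lt_div_iff₀ (by norm_num) hy0]; linarith
  have hq2 : q ≤ 1 / 8 := by
    rw [hq, div_le_div_iff₀ hy0 (by norm_num)]; linarith
  have hq0 : 0 ≤ q := by linarith
  -- the starting values
  obtain ⟨s0, A0, hs0, hs0', h0, h1⟩ : ∃ s0 A0 : ℕ, 2000000000 ≤ s0 ∧ s0 ≤ 2000000010 ∧
      0 < (A0 : ℝ) - q * s0 ∧ (A0 : ℝ) - q * s0 ≤ 1 / 4 := by
    set A0 := ⌊q * 2000000000⌋₊ + 1 with hA0
    have hA1 : q * 2000000000 < A0 := by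
      rw [hA0]; push_cast; exact Nat.lt_floor_add_one _
    have hA2 : (A0 : ℝ) ≤ q * 2000000000 + 1 := by
      rw [hA0]; push_cast
      have := Nat.floor_le (show 0 ≤ q * 2000000000 by positivity)
      linarith
    -- greatest s with q s < A0
    set k := Nat.findGreatest (fun k => q * (2000000000 + k : ℝ) < A0) 10 with hk
    have hk1 : q * (2000000000 + k : ℝ) < A0 := by
      have := @Nat.findGreatest_spec 0 (fun k => q * (2000000000 + k : ℝ) < A0) _ 10 (by norm_num)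
        (by push_cast; simpa using hA1)
      exact this
    have hk2 : k ≤ 10 := Nat.findGreatest_le _
    have hk3 : k < 10 := by
      by_contra hc
      have : k = 10 := by omega
      rw [this] at hk1
      push_cast at hk1
      linarith
    have hk4 : ¬ (q * (2000000000 + ((k + 1 : ℕ) : ℝ)) < A0) := by
      intro hcon
      have : k + 1 ≤ k := by
        rw [hk]
        exact Nat.le_findGreatest (by omega) hcon
      omega
    push Not at hk4
    refine ⟨2000000000 + k, A0, by omega, by omega, ?_, ?_⟩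
    · push_cast; linarith
    · push_cast
      push_cast at hk4
      linarith
  obtain ⟨s, A, L, f, e0, s_succ, L4, L16, sbig, f_succ, f_le, f_sq, eta0, eta1, A_succ⟩ :=
    seqs q hq0 s0 A0 hs0 h0 h1
  have hdes : ∀ j, ∃ t : ℕ, 0 < t ∧ t ≤ 34 * (Nat.sqrt (2 * s j - 1) + 1) ∧
      ∃ N : ℕ → ℕ → Finset ℕ,
      (∀ p τ, N p τ ⊆ range (2 * s j) ∧ (N p τ).card = A j) ∧
      ∀ (w : ℕ → ℝ) (δ : ℝ) (p : ℕ), p < 2 * s j →
      (∀ τ, τ < t → δ ≤ ∑ k ∈ N p τ, w k) →
      ((2 * s j : ℝ) - 1) * (δ - w p) ≤ ((A j : ℝ) - 1) * (∑ k ∈ range (2 * s j), w k - w p) := by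
    intro j
    have e1 := sbig j
    have e1' : (2000000000 : ℝ) ≤ s j := by exact_mod_cast e1
    have e2 := eta0 j
    have e3 := eta1 j
    have e4 : (s j : ℝ) < 9 * A j := by nlinarith
    have e4' : s j < 9 * A j := by exact_mod_cast e4
    have e5 : 8 * (A j : ℝ) ≤ s j + 2 := by nlinarith
    have e5' : 8 * A j ≤ s j + 2 := by exact_mod_cast e5
    obtain ⟨t, ht0, ht, N, hN1, hN2⟩ := design (2 * s j - 1) (A j - 1) (by omega) (by omega) (by omega)
    have e6 : 2 * s j - 1 + 1 = 2 * s j := by omega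
    have e7 : A j - 1 + 1 = A j := by omega
    rw [e6, e7] at hN1
    rw [e6] at hN2
    refine ⟨t, ht0, ht, N, hN1, ?_⟩
    intro w δ p hp h
    have := hN2 w δ p hp h
    rw [Nat.cast_sub (by omega), Nat.cast_sub (by omega)] at this
    push_cast at this
    exact this
  choose t ht0 ht N hN1 hN2 using hdes
  have hA9 : ∀ j, s j < 9 * A j := by
    intro j
    have e1' : (2000000000 : ℝ) ≤ s j := by exact_mod_cast sbig j
    have e2 := eta0 j
    have e4 : (s j : ℝ) < 9 * A j := by nlinarith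
    exact_mod_cast e4
  have hA8 : ∀ j, 8 * A j ≤ s j + 2 := by
    intro j
    have e3 := eta1 j
    have e1' : (2000000000 : ℝ) ≤ s j := by exact_mod_cast sbig j
    have e5 : 8 * (A j : ℝ) ≤ s j + 2 := by nlinarith
    exact_mod_cast e5
  refine ⟨y, {
    mu := μ
    s := s
    A := A
    L := L
    f := f
    t := t
    N := N
    y32 := hy1
    s_succ := s_succ
    L4 := L4
    s1 := fun j => by have := sbig j; omega
    f_succ := f_succ
    f_le := f_le
    A2 := ?_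
    etaPos := ?_
    etaLe := ?_
    A_succ := A_succ
    A_le := ?_
    t_pos := ht0
    supply := ?_
    mu_s := ?_
    mu_t := ?_
    N_sub := fun j p τ => (hN1 j p τ).1
    N_card := fun j p τ => (hN1 j p τ).2
    N_main := hN2 }, ?_⟩
  · intro j; have := sbig j; have := hA9 j; omega
  · intro j
    have := eta0 j
    have h2 : 0 < y * ((A j : ℝ) - q * s j) := by positivity
    nlinarith
  · intro j
    have := eta1 j
    have h2 : y * ((A j : ℝ) - q * s j) ≤ y * (1 / 4) := mul_le_mul_of_nonneg_left this hy0.le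
    nlinarith
  · intro j; have := sbig j; have := hA8 j; omega
  · intro j
    have h3 := ht (j + 1)
    rw [s_succ] at h3
    exact supply_num (s j) (f j) (L j) (t (j + 1)) (by have := sbig j; omega) (f_sq j) (L16 j) (L4 j) h3
  · omega
  · have h3 := ht 0
    have h5 : Nat.sqrt (2 * s 0 - 1) ≤ 100000 := by
      by_contra hc
      have : 100001 * 100001 ≤ Nat.sqrt (2 * s 0 - 1) * Nat.sqrt (2 * s 0 - 1) :=
        Nat.mul_le_mul (by omega) (by omega)
      have h6 := Nat.sqrt_le (2 * s 0 - 1)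
      omega
    omega
  · simp only [hy]
    field_simp
    ring

end Pool.Agent.W494.CD
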