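import Pool.Agent.W494.CD.Fill
set_option autoImplicit false
namespace Pool.Agent.W494.CD
open Finset

theorem design0 (W u h t1 t2 : ℕ) (hW : 0 < W) (hwt : t1 * h + t2 = W)
    (h32 : 32 * h ≤ t2) (hu32 : W ≤ 32 * u) (hu2 : 2 * u ≤ W) :
    ∃ T : ℕ → Finset ℕ, (∀ τ, τ < t1 + t2 → T τ ⊆ range W ∧ (T τ).card = u) ∧
      ∀ w : ℕ → ℝ, (h:ℝ) * ∑ τ ∈ range t1, ∑ k ∈ T τ, w k
        + ∑ τ ∈ range t2, ∑ k ∈ T (t1 + τ), w k = u * ∑ k ∈ range W, w k := by
  obtain ⟨i0, nB, hi, hnB⟩ : ∃ i0 nB : ℕ, t1 * u + nB = W * i0 ∧ nB < W := by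
    refine ⟨(t1 * u + (W - 1)) / W, W * ((t1 * u + (W - 1)) / W) - t1 * u, ?_, ?_⟩
    · have := Nat.div_add_mod (t1 * u + (W - 1)) W
      have h2 := Nat.mod_lt (t1 * u + (W - 1)) hW
      omega
    · have := Nat.div_add_mod (t1 * u + (W - 1)) W
      have h2 := Nat.mod_lt (t1 * u + (W - 1)) hW
      omega
  have hi1 : i0 ≤ t1 := by
    by_contra hcon
    have h1 : W * (t1 + 1) ≤ W * i0 := Nat.mul_le_mul_left _ (by omega)
    have h2 : t1 * u ≤ t1 * W := Nat.mul_le_mul_left _ (by omega)
    rw [Nat.mul_comm t1 W] at h2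
    rw [Nat.mul_add] at h1
    omega
  have hhi : h * i0 ≤ u := by
    have h1 : W * (h * i0) ≤ W * u := by
      have e1 : W * (h * i0) = h * (t1 * u + nB) := by rw [hi]; ring
      have e2 : h * nB ≤ h * W := Nat.mul_le_mul_left _ hnB.le
      have e3 : h * W ≤ h * (32 * u) := Nat.mul_le_mul_left _ hu32
      have e4 : 32 * h * u ≤ t2 * u := Nat.mul_le_mul_right _ h32
      have e5 : W * u = t1 * h * u + t2 * u := by rw [← hwt]; ring
      nlinarith
    exact Nat.le_of_mul_le_mul_left h1 hW
  have hc2 : u + h ≤ t2 + h * i0 := by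
    have h1 : W * (u + h) ≤ W * (t2 + h * i0) := by
      have e1 : W * (h * i0) = h * (t1 * u + nB) := by rw [hi]; ring
      have e5 : W * u = t1 * h * u + t2 * u := by rw [← hwt]; ring
      have e6 : t2 * (2 * u) ≤ t2 * W := Nat.mul_le_mul_left _ hu2
      have e7 : 32 * h * W ≤ t2 * W := Nat.mul_le_mul_right _ h32
      have e8 : 0 ≤ h * W := Nat.zero_le _
      nlinarith
    exact Nat.le_of_mul_le_mul_left h1 hW
  have hpos : 0 < nB → 1 ≤ i0 := by
    intro h1
    by_contra h2
    have : i0 = 0 := by omega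
    subst this
    omega
  -- column counts
  set c1 : ℕ → ℕ := fun k => if k < nB then i0 - 1 else i0 with hc1
  have hc1le : ∀ k, c1 k ≤ i0 := by
    intro k; simp only [hc1]; split_ifs <;> omega
  have hsum1 : ∑ k ∈ range W, c1 k = t1 * u := by
    have h1 : ∑ k ∈ range W, c1 k + nB = W * i0 := by
      have h2 : (∑ k ∈ range W, (if k < nB then 1 else 0)) = nB := by
        rw [← Finset.card_filter]
        have : (range W).filter (fun k => k < nB) = range nB := by
          ext k; simp only [mem_filter, mem_range]; omega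
        rw [this, card_range]
      have h3 : ∑ k ∈ range W, c1 k + ∑ k ∈ range W, (if k < nB then 1 else 0) = ∑ k ∈ range W, i0 := by
        rw [← Finset.sum_add_distrib]
        refine Finset.sum_congr rfl ?_
        intro k _
        simp only [hc1]
        split_ifs with hk
        · have := hpos (by omega)
          omega
        · rfl
      rw [h2] at h3
      rw [h3]; simp
    omega
  have hc1u : ∀ k, h * c1 k ≤ u := fun k => (Nat.mul_le_mul_left _ (hc1le k)).trans hhi
  set c2 : ℕ → ℕ := fun k => u - h * c1 k with hc2'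
  have hc12 : ∀ k, h * c1 k + c2 k = u := by
    intro k; simp only [hc2']; have := hc1u k; omega
  have hc2le : ∀ k, k < W → c2 k ≤ t2 := by
    intro k _
    have h1 := hc12 k
    have h2 : h * i0 ≤ h * c1 k + h := by
      have : i0 ≤ c1 k + 1 := by simp only [hc1]; split_ifs <;> omega
      calc h * i0 ≤ h * (c1 k + 1) := Nat.mul_le_mul_left _ this
        _ = _ := by ring
    omega
  have hsum2 : ∑ k ∈ range W, c2 k = t2 * u := by
    have h1 : h * ∑ k ∈ range W, c1 k + ∑ k ∈ range W, c2 k = W * u := by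
      rw [Finset.mul_sum, ← Finset.sum_add_distrib]
      simp [hc12]
    rw [hsum1] at h1
    have e1 : h * (t1 * u) = t1 * h * u := by ring
    have e5 : W * u = t1 * h * u + t2 * u := by rw [← hwt]; ring
    rw [e1, e5] at h1
    omega
  obtain ⟨T1, hT1, hT1'⟩ := fill W t1 u c1 (fun k _ => (hc1le k).trans hi1) hsum1
  obtain ⟨T2, hT2, hT2'⟩ := fill W t2 u c2 hc2le hsum2
  refine ⟨fun τ => if τ < t1 then T1 τ else T2 (τ - t1), ?_, ?_⟩
  · intro τ hτ
    by_cases h1 : τ < t1
    · simp only [h1, if_true]; exact hT1 τ h1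
    · simp only [h1, if_false]; exact hT2 (τ - t1) (by omega)
  · intro w
    have e1 : ∑ τ ∈ range t1, ∑ k ∈ (if τ < t1 then T1 τ else T2 (τ - t1)), w k
        = ∑ k ∈ range W, (c1 k : ℝ) * w k := by
      rw [← hT1' w]
      refine Finset.sum_congr rfl ?_
      intro τ hτ
      rw [if_pos (mem_range.mp hτ)]
    have e2 : ∑ τ ∈ range t2, ∑ k ∈ (if t1 + τ < t1 then T1 (t1 + τ) else T2 (t1 + τ - t1)), w k
        = ∑ k ∈ range W, (c2 k : ℝ) * w k := by
      rw [← hT2' w]
      refine Finset.sum_congr rfl ?_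
      intro τ hτ
      rw [if_neg (by omega)]
      simp
    rw [e1, e2, Finset.mul_sum, ← Finset.sum_add_distrib, Finset.mul_sum]
    refine Finset.sum_congr rfl ?_
    intro k _
    have := hc12 k
    rw [← this]
    push_cast
    ring

/-- skipping `p` -/
def skip (p k : ℕ) : ℕ := if k < p then k else k + 1

theorem skip_inj (p : ℕ) : Function.Injective (skip p) := by
  intro a b h
  unfold skip at h
  split_ifs at h <;> omega

theorem skip_ne (p k : ℕ) : skip p k ≠ p := by
  unfold skip; split_ifs <;> omega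

theorem skip_lt (p k W : ℕ) (hk : k < W) : skip p k < W + 1 := by
  unfold skip; split_ifs <;> omega

theorem sum_skip (p W : ℕ) (hp : p ≤ W) (w : ℕ → ℝ) :
    w p + ∑ k ∈ range W, w (skip p k) = ∑ k ∈ range (W + 1), w k := by
  have h1 : range (W + 1) = insert p ((range W).image (skip p)) := by
    ext x
    simp only [mem_range, mem_insert, mem_image]
    constructor
    · intro hx
      by_cases h : x = p
      · left; exact h
      · right
        by_cases h2 : x < p
        · exact ⟨x, by omega, by simp [skip, h2]⟩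
        · refine ⟨x - 1, by omega, ?_⟩
          unfold skip
          rw [if_neg (by omega)]
          omega
    · rintro (rfl | ⟨k, hk, rfl⟩)
      · omega
      · exact skip_lt p k W hk
  rw [h1, Finset.sum_insert, Finset.sum_image]
  · intro a _ b _ hab; exact skip_inj p hab
  · simp only [mem_image, not_exists, not_and]
    intro k _; exact skip_ne p k

/-- The design: `M` points, neighbourhoods of size `A` containing `p`. -/
theorem design (W u : ℕ) (hW : 5000 ≤ W) (hu32 : W ≤ 32 * u) (hu2 : 2 * u ≤ W) :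
    ∃ t : ℕ, 0 < t ∧ t ≤ 34 * (Nat.sqrt W + 1) ∧ ∃ N : ℕ → ℕ → Finset ℕ,
      (∀ p τ, N p τ ⊆ range (W + 1) ∧ (N p τ).card = u + 1) ∧
      ∀ (w : ℕ → ℝ) (δ : ℝ), ∀ p, p < W + 1 → (∀ τ, τ < t → δ ≤ ∑ k ∈ N p τ, w k) →
        (W : ℝ) * (δ - w p) ≤ u * (∑ k ∈ range (W + 1), w k - w p) := by
  set h := Nat.sqrt W + 1 with hh
  have hh1 : W < h * h := Nat.lt_succ_sqrt W
  have hh2 : (h - 1) * (h - 1) ≤ W := Nat.sqrt_le W
  have hh3 : 71 ≤ h := by
    by_contra hcon
    have : h ≤ 70 := by omega
    have := Nat.mul_le_mul this this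
    omega
  have hW33 : 33 * h ≤ W := by
    have : 34 * (h - 1) ≤ (h - 1) * (h - 1) := Nat.mul_le_mul_right _ (by omega)
    omega
  set t1 := (W - 32 * h) / h with ht1
  have hd := Nat.div_add_mod (W - 32 * h) h
  have hm := Nat.mod_lt (W - 32 * h) (show 0 < h by omega)
  rw [← ht1] at hd
  clear_value t1
  have hcomm : h * t1 = t1 * h := Nat.mul_comm _ _
  have ht1le : t1 < h := by
    by_contra hcon
    have : h * h ≤ t1 * h := Nat.mul_le_mul_right _ (by omega)
    omega
  obtain ⟨T, hT, hT'⟩ := design0 W u h t1 (W - t1 * h) (by omega) (by omega) (by omega) hu32 hu2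
  set t2 := W - t1 * h with ht2
  have ht2' : t2 < 33 * h := by omega
  refine ⟨t1 + t2, by omega, by omega, ?_⟩
  refine ⟨fun p τ => if p < W + 1 ∧ τ < t1 + t2 then insert p ((T τ).image (skip p)) else range (u + 1), ?_, ?_⟩
  · intro p τ
    dsimp only
    split_ifs with hc
    · obtain ⟨hsub, hcard⟩ := hT τ hc.2
      constructor
      · intro x hx
        rw [mem_insert, mem_image] at hx
        rw [mem_range]
        rcases hx with rfl | ⟨k, hk, rfl⟩
        · exact hc.1
        · exact skip_lt p k W (mem_range.mp (hsub hk))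
      · rw [Finset.card_insert_of_notMem, Finset.card_image_of_injective _ (skip_inj p), hcard]
        simp only [mem_image, not_exists, not_and]
        intro k _; exact skip_ne p k
    · constructor
      · intro x hx
        rw [mem_range] at hx ⊢; omega
      · exact card_range _
  · intro w δ p hp hδ
    have h1 : ∀ τ, τ < t1 + t2 → δ - w p ≤ ∑ k ∈ T τ, w (skip p k) := by
      intro τ hτ
      have := hδ τ hτ
      simp only [hp, hτ, and_self, if_true] at this
      rw [Finset.sum_insert, Finset.sum_image] at this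
      · linarith
      · intro a _ b _ hab; exact skip_inj p hab
      · simp only [mem_image, not_exists, not_and]
        intro k _; exact skip_ne p k
    have h2 := hT' (fun k => w (skip p k))
    have h3 := sum_skip p W (by omega) w
    have h4 : (t1 : ℝ) * (δ - w p) ≤ ∑ τ ∈ range t1, ∑ k ∈ T τ, w (skip p k) := by
      have := Finset.card_nsmul_le_sum (range t1) (fun τ => ∑ k ∈ T τ, w (skip p k)) (δ - w p)
        (fun τ hτ => h1 τ (by rw [mem_range] at hτ; omega))
      simpa using this
    have h5 : (t2 : ℝ) * (δ - w p) ≤ ∑ τ ∈ range t2, ∑ k ∈ T (t1 + τ), w (skip p k) := by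
      have := Finset.card_nsmul_le_sum (range t2) (fun τ => ∑ k ∈ T (t1 + τ), w (skip p k)) (δ - w p)
        (fun τ hτ => h1 (t1 + τ) (by rw [mem_range] at hτ; omega))
      simpa using this
    have h6 : (W : ℝ) = t1 * h + t2 := by
      have : t1 * h + t2 = W := by omega
      exact_mod_cast this.symm
    have h7 : (h : ℝ) * ((t1 : ℝ) * (δ - w p)) ≤ h * ∑ τ ∈ range t1, ∑ k ∈ T τ, w (skip p k) :=
      mul_le_mul_of_nonneg_left h4 (Nat.cast_nonneg _)
    have h8 : ∑ k ∈ range (W + 1), w k - w p = ∑ k ∈ range W, w (skip p k) := by linarith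
    rw [h8, ← h2]
    calc (W : ℝ) * (δ - w p) = (h : ℝ) * ((t1 : ℝ) * (δ - w p)) + (t2 : ℝ) * (δ - w p) := by
          rw [h6]; ring
      _ ≤ _ := add_le_add h7 h5

/-- summed form -/
theorem design_sum (W u : ℕ) (hW : 0 < W) (w : ℕ → ℝ) (δ : ℝ)
    (h : ∀ p, p < W + 1 → (W : ℝ) * (δ - w p) ≤ u * (∑ k ∈ range (W + 1), w k - w p)) :
    ((W : ℝ) + 1) * δ ≤ (u + 1) * ∑ k ∈ range (W + 1), w k := by
  have h1 : ∑ p ∈ range (W + 1), (W : ℝ) * (δ - w p)
      ≤ ∑ p ∈ range (W + 1), (u : ℝ) * (∑ k ∈ range (W + 1), w k - w p) :=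
    Finset.sum_le_sum (fun p hp => h p (mem_range.mp hp))
  rw [← Finset.mul_sum, ← Finset.mul_sum, Finset.sum_sub_distrib, Finset.sum_sub_distrib] at h1
  simp only [sum_const, card_range, nsmul_eq_mul] at h1
  push_cast at h1
  set Sg := ∑ k ∈ range (W + 1), w k
  have hW' : (0 : ℝ) < W := by exact_mod_cast hW
  have h2 : (W : ℝ) * (((W : ℝ) + 1) * δ) ≤ W * ((u + 1) * Sg) := by nlinarith
  exact le_of_mul_le_mul_left h2 hW'

end Pool.Agent.W494.CD
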