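import Pool.Agent.W494.CD.Cls
set_option autoImplicit false
namespace Pool.Agent.W494.CD
open Finset

/-- the cyclic pattern condition on a single edge -/
def Cyc {V : Type} {k : ℕ} (c : V → ZMod (k + 2)) (e : Finset V) : Prop :=
  ∀ w ∈ e, ∀ i, (∀ u ∈ e, u ≠ w → c u = i) → c w = i + 1

theorem add_one_ne {k : ℕ} (i : ZMod (k + 2)) : i + 1 ≠ i := by
  have : Fact (1 < k + 2) := ⟨by omega⟩
  intro h
  have : (1 : ZMod (k + 2)) = 0 := by
    have h2 := congrArg (fun x => x - i) h
    simp at h2
  exact one_ne_zero this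

theorem two_colors {V : Type} {k : ℕ} (c : V → ZMod (k + 2)) (S : Finset V) (a b : V)
    (ha : a ∈ S) (hb : b ∈ S) (hab : c a ≠ c b) :
    ∃ q1 q2 : ZMod (k + 2), q1 ≠ q2 ∧
      ∀ w (hw : w ∉ S), (c w = q1 ∨ c w = q2) → Cyc c (Finset.cons w S hw) := by
  have claim1 : ∀ q, q ≠ c a → q ≠ c b → ∀ w (hw : w ∉ S), c w = q → Cyc c (Finset.cons w S hw) := by
    intro q hqa hqb w hw hq w' hw' i hi
    exfalso
    have hab' : a ≠ b := fun h => hab (by rw [h])
    have hwa : w ≠ a := fun h => hw (h ▸ ha)
    have hwb : w ≠ b := fun h => hw (h ▸ hb)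
    by_cases h1 : w' = w
    · subst h1
      have e1 := hi a (by simp [ha]) hwa.symm
      have e2 := hi b (by simp [hb]) hwb.symm
      exact hab (e1.trans e2.symm)
    · have e0 := hi w (by simp) (fun h => h1 h.symm)
      by_cases h2 : w' = a
      · have e2 := hi b (by simp [hb]) (fun h => hab' (by rw [← h2, h]))
        exact hqb (by rw [← hq, e0, e2])
      · have e2 := hi a (by simp [ha]) (fun h => h2 h.symm)
        exact hqa (by rw [← hq, e0, e2])
  have claim2 : ∀ a b, a ∈ S → b ∈ S → c a ≠ c b → c b = c a + 1 → ∀ w (hw : w ∉ S), c w = c a →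
      Cyc c (Finset.cons w S hw) := by
    intro a b ha hb hab hba w hw hq w' hw' i hi
    have hab' : a ≠ b := fun h => hab (by rw [h])
    have hwa : w ≠ a := fun h => hw (h ▸ ha)
    have hwb : w ≠ b := fun h => hw (h ▸ hb)
    by_cases h1 : w' = w
    · exfalso
      subst h1
      have e1 := hi a (by simp [ha]) hwa.symm
      have e2 := hi b (by simp [hb]) hwb.symm
      exact hab (e1.trans e2.symm)
    · have e0 := hi w (by simp) (fun h => h1 h.symm)
      by_cases h2 : w' = b
      · rw [h2, hba, ← e0, hq]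
      · exfalso
        have e2 := hi b (by simp [hb]) (fun h => h2 h.symm)
        exact hab (by rw [← hq, e0, e2])
  by_cases h1 : c b = c a + 1
  · by_cases h2 : c a = c b + 1
    · refine ⟨c a, c b, hab, ?_⟩
      intro w hw h
      rcases h with h | h
      · exact claim2 a b ha hb hab h1 w hw h
      · exact claim2 b a hb ha hab.symm h2 w hw h
    · refine ⟨c a, c b + 1, h2, ?_⟩
      intro w hw h
      rcases h with h | h
      · exact claim2 a b ha hb hab h1 w hw h
      · exact claim1 (c b + 1) (fun h => h2 h.symm) (add_one_ne _) w hw h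
  · by_cases h2 : c a = c b + 1
    · refine ⟨c a + 1, c b, fun h => h1 h.symm, ?_⟩
      intro w hw h
      rcases h with h | h
      · exact claim1 (c a + 1) (add_one_ne _) (fun h => h1 h.symm) w hw h
      · exact claim2 b a hb ha hab.symm h2 w hw h
    · refine ⟨c a + 1, c b + 1, ?_, ?_⟩
      · intro h; exact hab (add_right_cancel h)
      · intro w hw h
        rcases h with h | h
        · exact claim1 (c a + 1) (add_one_ne _) (fun h => h1 h.symm) w hw h
        · exact claim1 (c b + 1) (fun h => h2 h.symm) (add_one_ne _) w hw h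

/-- balanced colouring -/
theorem balanced {V : Type} [Fintype V] (k : ℕ) : ∃ c : V → ZMod (k + 2),
    ∀ i, Fintype.card V / (k + 2) ≤ (univ.filter (fun v => c v = i)).card := by
  classical
  obtain ⟨n, hn⟩ : ∃ n, n = Fintype.card V := ⟨_, rfl⟩
  rw [← hn]
  obtain ⟨e⟩ : Nonempty (V ≃ Fin n) := ⟨Fintype.equivFinOfCardEq hn.symm⟩
  refine ⟨fun v => ((e v : ℕ) : ZMod (k + 2)), ?_⟩
  intro i
  have h1 : ((range (n / (k + 2))).image (fun j => j * (k + 2) + i.val)).card = n / (k + 2) := by
    rw [Finset.card_image_of_injective, card_range]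
    intro x y hxy
    simp only at hxy
    have : x * (k + 2) = y * (k + 2) := by omega
    exact Nat.eq_of_mul_eq_mul_right (by omega) this
  rw [← h1]
  have hi := ZMod.val_lt i
  apply Finset.card_le_card_of_surjOn (fun v => (e v : ℕ))
  intro x hx
  simp only [coe_image, Set.mem_image, mem_coe, mem_range] at hx
  obtain ⟨j, hj, rfl⟩ := hx
  have hlt : j * (k + 2) + i.val < n := by
    calc j * (k + 2) + i.val < j * (k + 2) + (k + 2) := by omega
      _ = (j + 1) * (k + 2) := by ring
      _ ≤ n / (k + 2) * (k + 2) := Nat.mul_le_mul_right _ hj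
      _ ≤ n := Nat.div_mul_le_self _ _
  refine ⟨e.symm ⟨_, hlt⟩, ?_, ?_⟩
  · simp only [coe_filter, mem_univ, true_and, Set.mem_ofPred_eq, Equiv.apply_symm_apply]
    push_cast
    have h3 : ((k : ZMod (k + 2)) + 2) = 0 := by
      have := ZMod.natCast_self (k + 2)
      push_cast at this
      exact this
    rw [h3, mul_zero, zero_add, ZMod.natCast_zmod_val]
  · simp

end Pool.Agent.W494.CD
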