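import Pool.Agent.W494.CD.Engel
set_option autoImplicit false
namespace Pool.Agent.W494.CD
open Finset

/-- the class obtained by the cyclic construction -/
def EngK (r k : ℕ) (K : ∀ V : Type, (Finset V → Prop) → Prop) (V : Type) (E : Finset V → Prop) : Prop :=
  ∃ c : V → ZMod (k + 2),
    (∀ i, K {u // c u = i} (fun e => E (e.map (Function.Embedding.subtype _)))) ∧
    (∀ e : Finset V, e.card = r → E e → ∀ w ∈ e, ∀ i, (∀ u ∈ e, u ≠ w → c u = i) →
      c w = i ∨ c w = i + 1)

theorem engK_mono (r k : ℕ) (K : ∀ V : Type, (Finset V → Prop) → Prop)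
    (hK : ∀ (V W : Type) [Fintype V] [Fintype W] (g : V ↪ W) (E : Finset V → Prop)
      (E' : Finset W → Prop),
      (∀ e, e.card = r → E e → E' (e.map g)) → K W E' → K V E)
    (V W : Type) [Fintype V] [Fintype W] (g : V ↪ W) (E : Finset V → Prop)
      (E' : Finset W → Prop)
    (h : ∀ e, e.card = r → E e → E' (e.map g)) (hW : EngK r k K W E') : EngK r k K V E := by
  classical
  obtain ⟨c, hc1, hc2⟩ := hW
  refine ⟨fun v => c (g v), ?_, ?_⟩
  · intro i
    let g' : {u : V // c (g u) = i} ↪ {u : W // c u = i} :=
      ⟨fun u => ⟨g u.1, u.2⟩, fun a b hab => by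
        have := congrArg Subtype.val hab
        exact Subtype.ext (g.injective this)⟩
    refine hK _ _ g' _ _ ?_ (hc1 i)
    intro e he hE
    have := h (e.map (Function.Embedding.subtype _)) (by rw [card_map, he]) hE
    rw [Finset.map_map] at this ⊢
    exact this
  · intro e he hE w hw i hi
    have := hc2 (e.map g) (by rw [card_map, he]) (h e he hE) (g w) (mem_map_of_mem g hw) i ?_
    · exact this
    · intro u hu huw
      rw [mem_map] at hu
      obtain ⟨u', hu', rfl⟩ := hu
      exact hi u' hu' (fun h => huw (by rw [h]))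

theorem engK_lower (r k : ℕ) (hr : 3 ≤ r) (v : ℝ) (hv0 : 0 ≤ v) (hv1 : v ≤ 1)
    (K : ∀ V : Type, (Finset V → Prop) → Prop)
    (hK : ∀ (V W : Type) [Fintype V] [Fintype W] (g : V ↪ W) (E : Finset V → Prop)
      (E' : Finset W → Prop),
      (∀ e, e.card = r → E e → E' (e.map g)) → K W E' → K V E)
    (hl : ∀ ε : ℝ, 0 < ε → ∃ N : ℕ, ∀ (V : Type) [Fintype V], N ≤ Fintype.card V →
      ∃ E, K V E ∧ ∀ S : Finset V, S.card + 1 = r → (v - ε) * Fintype.card V ≤ codeg E S)
    (ε : ℝ) (hε : 0 < ε) : ∃ N : ℕ, ∀ (V : Type) [Fintype V], N ≤ Fintype.card V →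
      ∃ E, EngK r k K V E ∧ ∀ S : Finset V, S.card + 1 = r →
        ((1 + v) / (k + 2) - ε) * Fintype.card V ≤ codeg E S := by
  classical
  set ε' := min ε 1 with hε'
  have hε'0 : 0 < ε' := lt_min hε one_pos
  have hε'1 : ε' ≤ 1 := min_le_right _ _
  have hε'2 : ε' ≤ ε := min_le_left _ _
  obtain ⟨N0, hN0⟩ := hl (ε' / 2) (by linarith)
  refine ⟨(k + 2) * N0 + ⌈(2 * r + 4) / ε'⌉₊, fun V _ hV => ?_⟩
  set n := Fintype.card V with hn
  have hk2 : (0 : ℝ) < k + 2 := by positivity
  have hnbig : (2 * r + 4 : ℝ) ≤ ε' * n := by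
    have h1 : ⌈(2 * (r : ℝ) + 4) / ε'⌉₊ ≤ n := by omega
    have h2 : (2 * (r : ℝ) + 4) / ε' ≤ n := (Nat.le_ceil _).trans (by exact_mod_cast h1)
    rw [div_le_iff₀ hε'0] at h2
    linarith
  obtain ⟨c, hc⟩ := balanced (V := V) k
  set q := n / (k + 2) with hq
  have hqN : N0 ≤ q := by
    rw [hq, Nat.le_div_iff_mul_le (by omega)]
    have : N0 * (k + 2) = (k + 2) * N0 := Nat.mul_comm _ _
    omega
  have hq1 : (n : ℝ) / (k + 2) - 1 ≤ q := by
    have h1 := Nat.div_add_mod n (k + 2)
    have h2 := Nat.mod_lt n (show 0 < k + 2 by omega)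
    rw [← hq] at h1
    have h3 : n < (k + 2) * (q + 1) := by
      rw [Nat.mul_add]; omega
    have h4 : (n : ℝ) < (k + 2) * (q + 1) := by exact_mod_cast h3
    have h5 : (n : ℝ) / (k + 2) < q + 1 := by
      rw [div_lt_iff₀ hk2]; linarith
    linarith
  have hcell : ∀ i, Fintype.card {u // c u = i} = (univ.filter (fun v => c v = i)).card := by
    intro i; rw [Fintype.card_subtype]
  have hE : ∀ i, ∃ E : Finset {u // c u = i} → Prop, K _ E ∧ ∀ S : Finset {u // c u = i},
      S.card + 1 = r → (v - ε' / 2) * q ≤ codeg E S := by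
    intro i
    have h1 : q ≤ Fintype.card {u // c u = i} := by rw [hcell]; exact hc i
    obtain ⟨E, hKE, hE⟩ := hN0 {u // c u = i} (hqN.trans h1)
    refine ⟨E, hKE, ?_⟩
    intro S hS
    have h2 := hE S hS
    rcases le_or_gt 0 (v - ε' / 2) with h3 | h3
    · refine le_trans (mul_le_mul_of_nonneg_left ?_ h3) h2
      exact_mod_cast h1
    · have h4 : (v - ε' / 2) * q ≤ 0 := mul_nonpos_of_nonpos_of_nonneg h3.le (Nat.cast_nonneg _)
      exact h4.trans (Nat.cast_nonneg _)
  choose Ec hEc1 hEc2 using hE
  set E : Finset V → Prop := fun e =>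
    (∃ i, ∃ e' : Finset {u // c u = i}, e'.map (Function.Embedding.subtype _) = e ∧ Ec i e') ∨
    ((¬ ∃ i, ∀ u ∈ e, c u = i) ∧ Cyc c e) with hEdef
  have hpos : (1 / 2 : ℝ) ≤ 1 + v - ε' / 2 := by linarith
  refine ⟨E, ⟨c, ?_, ?_⟩, ?_⟩
  · intro i
    refine hK _ _ (Function.Embedding.refl _) _ _ ?_ (hEc1 i)
    intro e he hEe
    rw [Finset.map_refl]
    rcases hEe with ⟨i', e', he', hE'⟩ | ⟨h, _⟩
    · have hne : e.Nonempty := by rw [← card_pos]; omega
      obtain ⟨x, hx⟩ := hne
      have h1 : (x : V) ∈ e'.map (Function.Embedding.subtype _) := by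
        rw [he']; exact mem_map_of_mem _ hx
      rw [mem_map] at h1
      obtain ⟨y, hy, hyx⟩ := h1
      have : i' = i := by
        have h2 := y.2
        have h3 := x.2
        have h4 : (y : V) = x := hyx
        rw [h4] at h2
        exact h2.symm.trans h3
      subst this
      have := Finset.map_injective _ he'
      rw [← this]; exact hE'
    · exfalso
      apply h
      refine ⟨i, ?_⟩
      intro u hu
      rw [mem_map] at hu
      obtain ⟨y, _, rfl⟩ := hu
      exact y.2
  · intro e he hEe w hw i hi
    rcases hEe with ⟨i', e', he', hE'⟩ | ⟨h, hcyc⟩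
    · left
      have h1 : ∀ u ∈ e, c u = i' := by
        intro u hu
        rw [← he', mem_map] at hu
        obtain ⟨y, _, rfl⟩ := hu
        exact y.2
      obtain ⟨u, hu, huw⟩ : ∃ u ∈ e, u ≠ w := by
        apply Finset.exists_mem_ne (by omega)
      rw [h1 w hw, ← h1 u hu, hi u hu huw]
    · right
      exact hcyc w hw i hi
  · intro S hS
    have hSne : S.Nonempty := by rw [← card_pos]; omega
    have goal1 : (1 + v - ε' / 2) * q ≤ codeg E S + S.card →
        ((1 + v) / (k + 2) - ε) * n ≤ codeg E S := by
      intro h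
      have h1 : (1 + v - ε' / 2) * ((n : ℝ) / (k + 2) - 1) ≤ (1 + v - ε' / 2) * q :=
        mul_le_mul_of_nonneg_left hq1 (by linarith)
      have h2 : (S.card : ℝ) ≤ r := by
        have : S.card ≤ r := by omega
        exact_mod_cast this
      have h3 : (1 + v - ε' / 2) * ((n : ℝ) / (k + 2) - 1)
          = (1 + v) / (k + 2) * n - ε' / 2 * (n / (k + 2)) - (1 + v - ε' / 2) := by
        field_simp
      have h4 : ε' / 2 * ((n : ℝ) / (k + 2)) ≤ ε' / 2 * n := by
        apply mul_le_mul_of_nonneg_left _ (by linarith)
        apply div_le_self (Nat.cast_nonneg _)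
        have : (0 : ℝ) ≤ k := Nat.cast_nonneg _
        linarith
      have h5 : ε' * n ≤ ε * n := mul_le_mul_of_nonneg_right hε'2 (Nat.cast_nonneg _)
      nlinarith
    by_cases hmono : ∃ i, ∀ u ∈ S, c u = i
    · obtain ⟨i, hi⟩ := hmono
      -- S' in the cell
      obtain ⟨S', hS'⟩ : ∃ S' : Finset {u // c u = i}, S'.map (Function.Embedding.subtype _) = S := by
        refine ⟨S.subtype (fun u => c u = i), ?_⟩
        rw [Finset.subtype_map]
        exact Finset.filter_true_of_mem hi
      have hS'card : S'.card + 1 = r := by rw [← hS', card_map] at hS; exact hS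
      have h1 := hEc2 i S' hS'card
      apply goal1
      have h2 : codeg (Ec i) S' + (univ.filter (fun v => c v = i + 1)).card ≤ codeg E S := by
        unfold codeg
        rw [← Set.ncard_image_of_injective _ Subtype.val_injective, ← Set.ncard_coe_finset,
          ← Set.ncard_union_eq]
        · apply Set.ncard_le_ncard _ (Set.toFinite _)
          rintro w (hw | hw)
          · obtain ⟨w', ⟨hw', hE'⟩, rfl⟩ := hw
            have hwS : (w' : V) ∉ S := by
              rw [← hS']
              intro hcon
              rw [mem_map] at hcon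
              obtain ⟨x, hx, hxw⟩ := hcon
              apply hw'
              have : x = w' := Subtype.ext hxw
              rwa [← this]
            refine ⟨hwS, Or.inl ⟨i, Finset.cons w' S' hw', ?_, hE'⟩⟩
            rw [Finset.map_cons]
            ext x
            simp only [mem_cons, hS']
            rfl
          · have hw1 : c w = i + 1 := by simpa using hw
            have hwS : w ∉ S := by
              intro hcon
              have := hi w hcon
              exact add_one_ne i (hw1.symm.trans this)
            refine ⟨hwS, Or.inr ⟨?_, ?_⟩⟩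
            · rintro ⟨i', hi'⟩
              obtain ⟨x, hx⟩ := hSne
              have e1 := hi' w (by simp)
              have e2 := hi' x (by simp [hx])
              rw [hi x hx] at e2
              rw [hw1, ← e2] at e1
              exact add_one_ne i e1
            · intro w' hw' i' hi'
              rw [mem_cons] at hw'
              rcases hw' with rfl | hw'
              · obtain ⟨x, hx⟩ := hSne
                have e2 := hi' x (by simp [hx]) (fun h => hwS (h ▸ hx))
                rw [hi x hx] at e2
                rw [hw1, e2]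
              · exfalso
                obtain ⟨x, hx, hxw⟩ := Finset.exists_mem_ne (show 1 < S.card by omega) w'
                have e1 := hi' w (by simp) (fun h => hwS (h ▸ hw'))
                have e2 := hi' x (by simp [hx]) hxw
                rw [hi x hx] at e2
                rw [hw1, ← e2] at e1
                exact add_one_ne i e1
        · rw [Set.disjoint_left]
          rintro w hw hw2
          obtain ⟨w', _, rfl⟩ := hw
          have hw1 : c w' = i + 1 := by simpa using hw2
          rw [w'.2] at hw1
          exact add_one_ne i hw1.symm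
      have h3 : (codeg (Ec i) S' : ℝ) + (univ.filter (fun v => c v = i + 1)).card ≤ codeg E S := by
        exact_mod_cast h2
      have h4 : (q : ℝ) ≤ (univ.filter (fun v => c v = i + 1)).card := by exact_mod_cast hc (i + 1)
      have h5 : (0 : ℝ) ≤ S.card := Nat.cast_nonneg _
      nlinarith
    · obtain ⟨a, ha⟩ := hSne
      have : ∃ b ∈ S, c a ≠ c b := by
        by_contra hcon
        push Not at hcon
        exact hmono ⟨c a, fun u hu => (hcon u hu).symm⟩
      obtain ⟨b, hb, hab⟩ := this
      obtain ⟨q1, q2, hq12, hgood⟩ := two_colors c S a b ha hb hab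
      apply goal1
      have h2 : ((univ.filter (fun v => c v = q1)) ∪ (univ.filter (fun v => c v = q2))).card
          ≤ codeg E S + S.card := by
        apply le_codeg
        intro w hw hwT
        right
        refine ⟨?_, ?_⟩
        · rintro ⟨i, hi⟩
          exact hab ((hi a (by simp [ha])).trans (hi b (by simp [hb])).symm)
        · apply hgood w hw
          rw [mem_union, mem_filter, mem_filter] at hwT
          rcases hwT with h | h
          · left; exact h.2
          · right; exact h.2
      rw [Finset.card_union_of_disjoint] at h2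
      · have e1 := hc q1
        have e2 := hc q2
        have e3 : 2 * q ≤ codeg E S + S.card := by omega
        have e4 : 2 * (q : ℝ) ≤ codeg E S + S.card := by exact_mod_cast e3
        have e5 : (0 : ℝ) ≤ q := Nat.cast_nonneg _
        nlinarith
      · rw [Finset.disjoint_left]
        intro w h1 h2
        rw [mem_filter] at h1 h2
        exact hq12 (h1.2.symm.trans h2.2)

end Pool.Agent.W494.CD
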