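import Mathlib
set_option autoImplicit false
namespace Pool.Agent.W494.CD
open Finset

/-- number of elements of residue `τ` in the `k`-th interval -/
noncomputable def chi (c : ℕ → ℕ) (t k τ : ℕ) : ℕ :=
  ((Ico (∑ j ∈ range k, c j) (∑ j ∈ range (k + 1), c j)).filter (fun x => x % t = τ)).card

theorem chi_le_one (c : ℕ → ℕ) (t k τ : ℕ) (h : c k ≤ t) : chi c t k τ ≤ 1 := by
  unfold chi
  rw [Finset.card_le_one]
  intro x hx y hy
  rw [mem_filter, mem_Ico, Finset.sum_range_succ] at hx hy
  obtain ⟨⟨hx1, hx2⟩, hx3⟩ := hx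
  obtain ⟨⟨hy1, hy2⟩, hy3⟩ := hy
  have hxy : x % t = y % t := by rw [hx3, hy3]
  rcases Nat.lt_or_ge x y with hlt | hge
  · exfalso
    have h1 : t ∣ y - x := (Nat.modEq_iff_dvd' hlt.le).mp hxy
    have h2 := Nat.le_of_dvd (by omega) h1
    omega
  · rcases Nat.lt_or_ge y x with hlt | hge'
    · exfalso
      have h1 : t ∣ x - y := (Nat.modEq_iff_dvd' hlt.le).mp hxy.symm
      have h2 := Nat.le_of_dvd (by omega) h1
      omega
    · omega

theorem chi_sum_tau (c : ℕ → ℕ) (t k : ℕ) (ht : 0 < t) : ∑ τ ∈ range t, chi c t k τ = c k := by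
  unfold chi
  rw [← Finset.card_eq_sum_card_fiberwise (f := fun x => x % t) (t := range t)]
  · rw [Nat.card_Ico, Finset.sum_range_succ]; omega
  · intro x _
    simp only [coe_range, Set.mem_Iio]
    exact Nat.mod_lt _ ht

theorem chi_sum_k (c : ℕ → ℕ) (t τ n : ℕ) :
    ∑ k ∈ range n, chi c t k τ
      = ((range (∑ j ∈ range n, c j)).filter (fun x => x % t = τ)).card := by
  induction n with
  | zero => simp
  | succ n ih =>
    rw [Finset.sum_range_succ (fun k => chi c t k τ), ih]
    unfold chi
    rw [Finset.card_filter, Finset.card_filter, Finset.card_filter]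
    have h0 : ∀ a : ℕ, range a = Ico 0 a := fun a => range_eq_Ico a
    rw [h0 (∑ j ∈ range n, c j), h0 (∑ j ∈ range (n + 1), c j), Finset.sum_Ico_consecutive]
    · exact Nat.zero_le _
    · rw [Finset.sum_range_succ]; omega

theorem card_res (t u τ : ℕ) (hτ : τ < t) :
    ((range (t * u)).filter (fun x => x % t = τ)).card = u := by
  have : (range (t * u)).filter (fun x => x % t = τ) = (range u).image (fun i => i * t + τ) := by
    ext x
    simp only [mem_filter, mem_range, mem_image]
    constructor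
    · rintro ⟨h1, h2⟩
      refine ⟨x / t, ?_, ?_⟩
      · exact Nat.div_lt_of_lt_mul h1
      · rw [← h2]; exact Nat.div_add_mod' x t
    · rintro ⟨i, hi, rfl⟩
      constructor
      · calc i * t + τ < i * t + t := by omega
          _ = t * (i + 1) := by ring
          _ ≤ t * u := Nat.mul_le_mul_left _ hi
      · rw [Nat.mul_comm i t, Nat.mul_add_mod]; exact Nat.mod_eq_of_lt hτ
  rw [this, Finset.card_image_of_injective, card_range]
  intro i j hij
  simp only at hij
  have : i * t = j * t := by omega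
  exact Nat.eq_of_mul_eq_mul_right (by omega) this

theorem fill (n t u : ℕ) (c : ℕ → ℕ) (hc : ∀ k, k < n → c k ≤ t)
    (hsum : ∑ k ∈ range n, c k = t * u) :
    ∃ T : ℕ → Finset ℕ, (∀ τ, τ < t → T τ ⊆ range n ∧ (T τ).card = u) ∧
      ∀ w : ℕ → ℝ, ∑ τ ∈ range t, ∑ k ∈ T τ, w k = ∑ k ∈ range n, (c k : ℝ) * w k := by
  have key : ∀ τ (w : ℕ → ℝ), ∑ k ∈ (range n).filter (fun k => chi c t k τ = 1), w k
      = ∑ k ∈ range n, (chi c t k τ : ℝ) * w k := by
    intro τ w
    rw [Finset.sum_filter]
    refine Finset.sum_congr rfl ?_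
    intro k hk
    have h1 := chi_le_one c t k τ (hc k (mem_range.mp hk))
    rcases Nat.le_one_iff_eq_zero_or_eq_one.mp h1 with h | h
    · simp [h]
    · simp [h]
  refine ⟨fun τ => (range n).filter (fun k => chi c t k τ = 1), ?_, ?_⟩
  · intro τ hτ
    refine ⟨Finset.filter_subset _ _, ?_⟩
    have h1 := key τ (fun _ => 1)
    simp only [sum_const, nsmul_eq_mul, mul_one] at h1
    have h2 : ∑ k ∈ range n, (chi c t k τ : ℝ) = ((∑ k ∈ range n, chi c t k τ : ℕ) : ℝ) := by
      push_cast; rfl
    rw [h2, chi_sum_k, hsum, card_res t u τ hτ] at h1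
    exact_mod_cast h1
  · intro w
    rcases Nat.eq_zero_or_pos t with ht | ht
    · subst ht
      simp only [range_zero, sum_empty]
      symm
      apply Finset.sum_eq_zero
      intro k hk
      have := hc k (mem_range.mp hk)
      have : c k = 0 := by omega
      simp [this]
    · calc ∑ τ ∈ range t, ∑ k ∈ (range n).filter (fun k => chi c t k τ = 1), w k
          = ∑ τ ∈ range t, ∑ k ∈ range n, (chi c t k τ : ℝ) * w k := by
            refine Finset.sum_congr rfl ?_
            intro τ _
            exact key τ w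
        _ = ∑ k ∈ range n, ∑ τ ∈ range t, (chi c t k τ : ℝ) * w k := Finset.sum_comm
        _ = ∑ k ∈ range n, (c k : ℝ) * w k := by
            refine Finset.sum_congr rfl ?_
            intro k _
            rw [← Finset.sum_mul, ← Nat.cast_sum, chi_sum_tau c t k ht]

end Pool.Agent.W494.CD
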