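import Pool.Agent.W494.CD.Pat
set_option autoImplicit false
namespace Pool.Agent.W494.CD
open Finset

section
variable {y : ℝ} (D : Dat y) {V : Type}

/-- edges of the extremal example -/
def Edge (n : ℕ) (z : V → ℕ) (c : ℕ → V → ℕ) (e : Finset V) : Prop :=
  ∀ (S : Finset V) (w : V) (hw : w ∉ S), Finset.cons w S hw = e → Ok D n z c S w

theorem cons_cases (S S' : Finset V) (w w' : V) (hw : w ∉ S) (hw' : w' ∉ S')
    (h : Finset.cons w' S' hw' = Finset.cons w S hw) :
    (w' = w ∧ S' = S) ∨ (w' ∈ S ∧ w ∈ S' ∧ (∀ u ∈ S, u ≠ w' → u ∈ S') ∧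
      ∀ u ∈ S', u = w ∨ u ∈ S) := by
  have hmem : ∀ u, (u = w' ∨ u ∈ S') ↔ (u = w ∨ u ∈ S) := by
    intro u
    have : u ∈ Finset.cons w' S' hw' ↔ u ∈ Finset.cons w S hw := by rw [h]
    simpa using this
  by_cases hww : w' = w
  · left
    refine ⟨hww, ?_⟩
    subst hww
    ext u
    have := hmem u
    by_cases hu : u = w'
    · subst hu; exact ⟨fun h => absurd h hw', fun h => absurd h hw⟩
    · simpa [hu] using this
  · right
    refine ⟨?_, ?_, ?_, ?_⟩
    · rcases (hmem w').mp (Or.inl rfl) with h | h
      · exact absurd h hww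
      · exact h
    · rcases (hmem w).mpr (Or.inl rfl) with h | h
      · exact absurd h.symm hww
      · exact h
    · intro u hu huw
      rcases (hmem u).mpr (Or.inr hu) with h | h
      · exact absurd h huw
      · exact h
    · intro u hu
      exact (hmem u).mp (Or.inr hu)

theorem req_groups (n : ℕ) (z : V → ℕ) (c : ℕ → V → ℕ) (S : Finset V) (v : V) (a j : ℕ)
    (N : Finset ℕ) (ha : a < 2) (h : Req D n z c S v a j N) :
    z v % 4 = a + 2 ∧ ∀ u ∈ S, u ≠ v → z u % 4 = a := by
  rcases h with ⟨_, p, τ, _, _, h1, h2, _⟩ | ⟨i, _, _, x, _, _, h1, h2, _⟩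
  · refine ⟨by omega, ?_⟩
    intro u hu huv
    have := h1 u hu huv
    omega
  · refine ⟨by omega, ?_⟩
    intro u hu huv
    have := (h1 u hu huv).1
    omega

theorem req_parity (n : ℕ) (z : V → ℕ) (c : ℕ → V → ℕ) (S : Finset V) (v : V) (a j : ℕ)
    (N : Finset ℕ) (ha : a < 2) (h : Req D n z c S v a j N) : ∀ u ∈ S, z u % 2 = a := by
  obtain ⟨h1, h2⟩ := req_groups D n z c S v a j N ha h
  intro u hu
  by_cases huv : u = v
  · subst huv; omega
  · have := h2 u hu huv
    omega

theorem req_unique (n : ℕ) (z : V → ℕ) (c : ℕ → V → ℕ)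
    (hfresh : ∀ u i j, i < j → j ≤ n → c j u < D.f j → c i u < bb D i)
    (S : Finset V) (hS : 2 ≤ S.card) (v v' : V) (a a' j j' : ℕ)
    (N N' : Finset ℕ) (hv : v ∈ S) (hv' : v' ∈ S) (ha : a < 2) (ha' : a' < 2)
    (h : Req D n z c S v a j N) (h' : Req D n z c S v' a' j' N') : a = a' ∧ j = j' ∧ N = N' := by
  obtain ⟨g1, g2⟩ := req_groups D n z c S v a j N ha h
  obtain ⟨g1', g2'⟩ := req_groups D n z c S v' a' j' N' ha' h'
  have p1 := req_parity D n z c S v a j N ha h v hv
  have p2 := req_parity D n z c S v' a' j' N' ha' h' v hv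
  have haa : a = a' := by omega
  subst haa
  have hvv : v = v' := by
    by_contra hne
    have := g2 v' hv' (fun h => hne h.symm)
    omega
  subst hvv
  obtain ⟨u, hu, huv⟩ := Finset.exists_mem_ne (show 1 < S.card by omega) v
  refine ⟨rfl, ?_⟩
  rcases h with ⟨hj, p, τ, _, _, h1, h2, h3⟩ | ⟨i, hj, hi, x, hx1, hx2, h1, h2, h3⟩
  · rcases h' with ⟨hj', p', τ', _, _, h1', h2', h3'⟩ | ⟨i', hj', hi', x', hx1', hx2', h1', h2', h3'⟩
    · have e1 := h1 u hu huv
      have e2 := h1' u hu huv
      have : p = p' := by omega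
      have : τ = τ' := by omega
      subst_vars
      exact ⟨rfl, rfl⟩
    · exfalso
      have e1 := h1 u hu huv
      have e2 := (h1' u hu huv).1
      omega
  · rcases h' with ⟨hj', p', τ', _, _, h1', h2', h3'⟩ | ⟨i', hj', hi', x', hx1', hx2', h1', h2', h3'⟩
    · exfalso
      have e1 := (h1 u hu huv).1
      have e2 := h1' u hu huv
      omega
    · have e1 := (h1 u hu huv).2
      have e2 := (h1' u hu huv).2
      have hii : i = i' := by
        rcases Nat.lt_trichotomy i i' with hlt | heq | hgt
        · exfalso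
          have := hfresh u i i' hlt hi'.le (by rw [e2]; exact hx2')
          rw [e1] at this
          omega
        · exact heq
        · exfalso
          have := hfresh u i' i hgt hi.le (by rw [e1]; exact hx2)
          rw [e2] at this
          omega
      subst hii
      rw [e1] at e2
      subst e2
      rw [hj, hj', h3, h3']
      exact ⟨rfl, rfl⟩

theorem req_form (n : ℕ) (z : V → ℕ) (c : ℕ → V → ℕ) (S : Finset V) (v : V) (a j : ℕ)
    (N : Finset ℕ) (h : Req D n z c S v a j N) : j ≤ n ∧ ∃ p τ, N = D.N j p τ := by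
  rcases h with ⟨hj, p, τ, _, _, _, _, h3⟩ | ⟨i, hj, hi, x, _, _, _, _, h3⟩
  · subst hj; exact ⟨Nat.zero_le _, p, τ, h3⟩
  · subst hj
    exact ⟨hi, _, _, h3⟩

theorem suc_ne (q : ℕ) : suc D q ≠ q := by
  unfold suc
  split_ifs with h
  · unfold nP at h; omega
  · omega

theorem suc_lt (q : ℕ) (hq : q < nP D) : suc D q < nP D := by
  unfold suc
  split_ifs with h
  · unfold nP; omega
  · omega

/-- If the edge has no opposite groups, the second condition is vacuous. -/
theorem no_opp_vac (n : ℕ) (z : V → ℕ) (c : ℕ → V → ℕ) (S : Finset V) (hS : 2 ≤ S.card)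
    (h : ∀ u ∈ S, ∀ v ∈ S, ∀ α, α < 2 → z u % 4 = α → z v % 4 = α + 2 → False)
    (v : V) (hv : v ∈ S) (a : ℕ) (ha : a < 2) (j : ℕ) (N : Finset ℕ)
    (hreq : Req D n z c S v a j N) : False := by
  obtain ⟨h1, h2⟩ := req_groups D n z c S v a j N ha hreq
  obtain ⟨u, hu, huv⟩ := Finset.exists_mem_ne (show 1 < S.card by omega) v
  exact h u hu v hv a ha (h2 u hu huv) h1

theorem card_cons_eq (S S' : Finset V) (w w' : V) (hw : w ∉ S) (hw' : w' ∉ S')
    (h : Finset.cons w' S' hw' = Finset.cons w S hw) : S'.card = S.card := by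
  have := congrArg Finset.card h
  rw [card_cons, card_cons] at this
  omega

/-- Edge criterion: no opposite pairs. -/
theorem edge_no_opp (n : ℕ) (z : V → ℕ) (c : ℕ → V → ℕ) (S : Finset V) (hS : 2 ≤ S.card) (w : V)
    (hw : w ∉ S)
    (h : ∀ u ∈ Finset.cons w S hw, ∀ v ∈ Finset.cons w S hw, ∀ α, α < 2 →
      z u % 4 = α → z v % 4 = α + 2 → False)
    (hT : ∀ (S' : Finset V) (w' : V) (hw' : w' ∉ S'),
      Finset.cons w' S' hw' = Finset.cons w S hw → ∀ q, (∀ u ∈ S', z u = q) → z w' = suc D q) :
    Edge D n z c (Finset.cons w S hw) := by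
  intro S' w' hw' heq
  refine ⟨hT S' w' hw' heq, ?_⟩
  intro v hv a ha j N hreq
  exfalso
  have hc := card_cons_eq S S' w w' hw hw' heq
  refine no_opp_vac D n z c S' (by omega) ?_ v hv a ha j N hreq
  intro u1 hu1 u2 hu2
  exact h u1 (by rw [← heq]; simp [hu1]) u2 (by rw [← heq]; simp [hu2])

theorem low_cases (n : ℕ) (z : V → ℕ) (c : ℕ → V → ℕ) (hz : ∀ v, z v < nP D)
    (hfresh : ∀ u i j, i < j → j ≤ n → c j u < D.f j → c i u < bb D i)
    (S : Finset V) (hS : 2 ≤ S.card) :
    (∃ q, q < nP D ∧ ∀ w (hw : w ∉ S), z w = q → Edge D n z c (Finset.cons w S hw)) ∨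
    (∃ a, a < 2 ∧ ∃ j, j ≤ n ∧ ∃ p τ, ∀ w (hw : w ∉ S),
      phi (D.s j) a (z w) (c j w) ∈ D.N j p τ → Edge D n z c (Finset.cons w S hw)) := by
  have hmu : 1 ≤ D.mu := by
    have h1 := D.mu_s
    have h2 := D.s1 0
    omega
  have hnP : nP D = 4 + 4 * D.mu := by unfold nP; ring
  by_cases hopp : ∃ v1 ∈ S, ∃ v2 ∈ S, ∃ a, a < 2 ∧ z v1 % 4 = a ∧ z v2 % 4 = a + 2
  · obtain ⟨v1, hv1, v2, hv2, a, ha, hz1, hz2⟩ := hopp
    have hv12 : v1 ≠ v2 := by
      intro h; subst h; omega
    -- T part for w of the other parity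
    have hT : ∀ w (hw : w ∉ S), z w % 2 ≠ a → ∀ (S' : Finset V) (w' : V) (hw' : w' ∉ S'),
        Finset.cons w' S' hw' = Finset.cons w S hw → ∀ q, (∀ u ∈ S', z u = q) →
        z w' = suc D q := by
      intro w hw hzw S' w' hw' heq q hq
      exfalso
      rcases cons_cases S S' w w' hw hw' heq with ⟨_, hSS⟩ | ⟨h1, h2, h3, h4⟩
      · subst hSS
        have e1 := hq v1 hv1
        have e2 := hq v2 hv2
        omega
      · have e0 := hq w h2
        by_cases h5 : w' = v1
        · have e2 := hq v2 (h3 v2 hv2 (fun h => hv12 (by rw [h, ← h5])))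
          omega
        · have e1 := hq v1 (h3 v1 hv1 (fun h => h5 h.symm))
          omega
    -- R part for S' ≠ S
    have hR : ∀ w (hw : w ∉ S), z w % 2 ≠ a → ∀ (S' : Finset V) (w' : V) (hw' : w' ∉ S'),
        Finset.cons w' S' hw' = Finset.cons w S hw → S' ≠ S →
        ∀ v ∈ S', ∀ α, α < 2 → ∀ j N, Req D n z c S' v α j N → False := by
      intro w hw hzw S' w' hw' heq hne v hv α hα j N hreq
      rcases cons_cases S S' w w' hw hw' heq with ⟨_, hSS⟩ | ⟨h1, h2, h3, h4⟩
      · exact hne hSS
      · have hpar := req_parity D n z c S' v α j N hα hreq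
        have e0 := hpar w h2
        by_cases h5 : w' = v1
        · have e2 := hpar v2 (h3 v2 hv2 (fun h => hv12 (by rw [h, ← h5])))
          omega
        · have e1 := hpar v1 (h3 v1 hv1 (fun h => h5 h.symm))
          omega
    by_cases hdes : ∃ v ∈ S, ∃ α, α < 2 ∧ ∃ j N, Req D n z c S v α j N
    · right
      obtain ⟨v, hv, α, hα, j, N, hreq⟩ := hdes
      have hpar := req_parity D n z c S v α j N hα hreq
      have hαa : α = a := by
        have := hpar v1 hv1
        omega
      obtain ⟨hjn, p, τ, hN⟩ := req_form D n z c S v α j N hreq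
      refine ⟨α, hα, j, hjn, p, τ, ?_⟩
      intro w hw hphi
      have hzw : z w % 2 ≠ a := by
        have h1 := D.N_sub j p τ hphi
        rw [mem_range] at h1
        unfold phi at h1
        split_ifs at h1 with h2 h3
        · omega
        · omega
        · omega
      intro S' w' hw' heq
      refine ⟨hT w hw hzw S' w' hw' heq, ?_⟩
      intro v' hv' α' hα' j' N' hreq'
      by_cases hSS : S' = S
      · subst hSS
        have hww : w' = w := by
          rcases cons_cases S' S' w w' hw hw' heq with ⟨h, _⟩ | ⟨h1, _⟩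
          · exact h
          · exact absurd h1 hw'
        subst hww
        obtain ⟨e1, e2, e3⟩ := req_unique D n z c hfresh S' hS v v' α α' j j' N N' hv hv' hα hα'
          hreq hreq'
        subst e1 e2 e3
        rw [hN]
        exact hphi
      · exact (hR w hw hzw S' w' hw' heq hSS v' hv' α' hα' j' N' hreq').elim
    · left
      refine ⟨a + 1, by omega, ?_⟩
      intro w hw hzw
      have hzw2 : z w % 2 ≠ a := by omega
      intro S' w' hw' heq
      refine ⟨hT w hw hzw2 S' w' hw' heq, ?_⟩
      intro v' hv' α' hα' j' N' hreq'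
      exfalso
      by_cases hSS : S' = S
      · subst hSS
        exact hdes ⟨v', hv', α', hα', j', N', hreq'⟩
      · exact hR w hw hzw2 S' w' hw' heq hSS v' hv' α' hα' j' N' hreq'
  · left
    have hno : ∀ u ∈ S, ∀ v ∈ S, ∀ α, α < 2 → z u % 4 = α → z v % 4 = α + 2 → False := by
      intro u hu v hv α hα h1 h2
      exact hopp ⟨u, hu, v, hv, α, hα, h1, h2⟩
    by_cases hsame : ∃ q, ∀ u ∈ S, z u = q
    · -- N1
      obtain ⟨q, hq⟩ := hsame
      obtain ⟨x, hx⟩ : S.Nonempty := by rw [← card_pos]; omega
      have hqlt : q < nP D := by rw [← hq x hx]; exact hz x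
      refine ⟨suc D q, suc_lt D q hqlt, ?_⟩
      intro w hw hzw
      have hs : suc D q % 4 = (q + 1) % 4 := by
        unfold suc
        split_ifs with h
        · rw [h]; unfold nP; omega
        · rfl
      apply edge_no_opp D n z c S hS w hw
      · intro u hu v hv α hα h1 h2
        rw [mem_cons] at hu hv
        rcases hu with rfl | hu
        · rcases hv with rfl | hv
          · omega
          · have := hq v hv
            omega
        · have e1 := hq u hu
          rcases hv with rfl | hv
          · omega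
          · have := hq v hv
            omega
      · intro S' w' hw' heq q' hq'
        rcases cons_cases S S' w w' hw hw' heq with ⟨hww, hSS⟩ | ⟨h1, h2, h3, h4⟩
        · subst hww hSS
          rw [hzw]
          have := hq' x hx
          rw [hq x hx] at this
          rw [this]
        · exfalso
          obtain ⟨u, hu, huw⟩ := Finset.exists_mem_ne (show 1 < S.card by omega) w'
          have e1 := hq' u (h3 u hu huw)
          have e2 := hq' w h2
          rw [hq u hu] at e1
          rw [hzw, ← e1] at e2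
          exact suc_ne D q e2
    · by_cases hgrp : ∃ g, g < 4 ∧ ∀ u ∈ S, z u % 4 = g
      · -- N2
        obtain ⟨g, hg, hg2⟩ := hgrp
        refine ⟨(g + 1) % 4, by omega, ?_⟩
        intro w hw hzw
        apply edge_no_opp D n z c S hS w hw
        · intro u hu v hv α hα h1 h2
          rw [mem_cons] at hu hv
          rcases hu with rfl | hu
          · rcases hv with rfl | hv
            · omega
            · have := hg2 v hv
              omega
          · have e1 := hg2 u hu
            rcases hv with rfl | hv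
            · omega
            · have := hg2 v hv
              omega
        · intro S' w' hw' heq q' hq'
          exfalso
          rcases cons_cases S S' w w' hw hw' heq with ⟨hww, hSS⟩ | ⟨h1, h2, h3, h4⟩
          · subst hww hSS
            exact hsame ⟨q', hq'⟩
          · obtain ⟨u, hu, huw⟩ := Finset.exists_mem_ne (show 1 < S.card by omega) w'
            have e1 := hq' u (h3 u hu huw)
            have e2 := hq' w h2
            have e3 := hg2 u hu
            omega
      · -- N3
        obtain ⟨g, hg, v1, hv1, v0, hv0, hg1, hg0, hall⟩ : ∃ g, g < 4 ∧ ∃ v1 ∈ S, ∃ v0 ∈ S,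
            z v1 % 4 = g ∧ z v0 % 4 = (g + 1) % 4 ∧
            ∀ u ∈ S, z u % 4 = g ∨ z u % 4 = (g + 1) % 4 := by
          obtain ⟨x, hx⟩ : S.Nonempty := by rw [← card_pos]; omega
          have : ∃ u ∈ S, z u % 4 ≠ z x % 4 := by
            by_contra hcon
            push Not at hcon
            exact hgrp ⟨z x % 4, Nat.mod_lt _ (by norm_num), hcon⟩
          obtain ⟨u, hu, hux⟩ := this
          have h1 : ∀ u ∈ S, ∀ v ∈ S, (z u + 2) % 4 ≠ z v % 4 := by
            intro u hu v hv h
            by_cases h2 : z u % 4 < 2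
            · exact hno u hu v hv (z u % 4) h2 rfl (by omega)
            · exact hno v hv u hu (z v % 4) (by omega) rfl (by omega)
          have hxu := h1 x hx u hu
          by_cases h2 : z u % 4 = (z x + 1) % 4
          · refine ⟨z x % 4, Nat.mod_lt _ (by norm_num), x, hx, u, hu, rfl, by omega, ?_⟩
            intro v hv
            have h3 := h1 x hx v hv
            have h4 := h1 u hu v hv
            omega
          · refine ⟨z u % 4, Nat.mod_lt _ (by norm_num), u, hu, x, hx, rfl, by omega, ?_⟩
            intro v hv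
            have h3 := h1 x hx v hv
            have h4 := h1 u hu v hv
            omega
        have hv10 : v1 ≠ v0 := by
          intro h; subst h; omega
        obtain ⟨q, hq, hq1, hq2⟩ : ∃ q, q < nP D ∧ q % 4 = (g + 1) % 4 ∧ q ≠ z v0 := by
          by_cases h : (g + 1) % 4 = z v0
          · refine ⟨4 + (g + 1) % 4, by omega, by omega, by omega⟩
          · exact ⟨(g + 1) % 4, by omega, by omega, h⟩
        refine ⟨q, hq, ?_⟩
        intro w hw hzw
        apply edge_no_opp D n z c S hS w hw
        · intro u hu v hv α hα h1 h2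
          have hgr : ∀ u ∈ Finset.cons w S hw, z u % 4 = g ∨ z u % 4 = (g + 1) % 4 := by
            intro u hu
            rw [mem_cons] at hu
            rcases hu with rfl | hu
            · right; rw [hzw]; exact hq1
            · exact hall u hu
          have e1 := hgr u hu
          have e2 := hgr v hv
          omega
        · intro S' w' hw' heq q' hq'
          exfalso
          rcases cons_cases S S' w w' hw hw' heq with ⟨hww, hSS⟩ | ⟨h1, h2, h3, h4⟩
          · subst hww hSS
            exact hsame ⟨q', hq'⟩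
          · have e0 := hq' w h2
            by_cases h5 : w' = v0
            · have e1 := hq' v1 (h3 v1 hv1 (fun h => hv10 (by rw [h, ← h5])))
              omega
            · have e1 := hq' v0 (h3 v0 hv0 (fun h => h5 h.symm))
              omega

end

end Pool.Agent.W494.CD
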