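import Pool.Agent.W494.CD.Low
set_option autoImplicit false
namespace Pool.Agent.W494.CD
open Finset

section
variable {y : ℝ} (D : Dat y)

def TT (n : ℕ) : ℕ := 4 * D.mu * D.A n + 4 * D.s n

def zU (n k : ℕ) : ℕ := if k < 4 * D.s n then k / D.s n else 4 + (k - 4 * D.s n) / D.A n
def xU (n k : ℕ) : ℕ := if k < 4 * D.s n then k % D.s n else 0
def cU (n j k : ℕ) : ℕ := if j ≤ n then xU D n k / (D.s n / D.s j) else 0

theorem ratio (j n : ℕ) (h : j ≤ n) : ∃ R, 0 < R ∧ D.s n = R * D.s j ∧ D.A n ≤ R * D.A j ∧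
    D.s n / D.s j = R := by
  have key : ∃ R, 0 < R ∧ D.s n = R * D.s j ∧ D.A n ≤ R * D.A j := by
    induction n, h using Nat.le_induction with
    | base => exact ⟨1, one_pos, by ring, by omega⟩
    | succ n hn ih =>
      obtain ⟨R, hR, h1, h2⟩ := ih
      have hL := D.L4 n
      refine ⟨D.L n * R, by positivity, ?_, ?_⟩
      · rw [D.s_succ, h1]; ring
      · calc D.A (n + 1) ≤ D.L n * D.A n := D.A_succ n
          _ ≤ D.L n * (R * D.A j) := Nat.mul_le_mul_left _ h2
          _ = _ := by ring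
  obtain ⟨R, hR, h1, h2⟩ := key
  refine ⟨R, hR, h1, h2, ?_⟩
  rw [h1]
  exact Nat.mul_div_cancel _ (D.s1 j)

theorem xU_lt (n k : ℕ) : xU D n k < D.s n := by
  unfold xU
  have := D.s1 n
  split_ifs
  · exact Nat.mod_lt _ this
  · exact this

theorem cU_lt (n j k : ℕ) : cU D n j k < D.s j := by
  unfold cU
  split_ifs with h
  · obtain ⟨R, hR, h1, _, h3⟩ := ratio D j n h
    rw [h3, Nat.div_lt_iff_lt_mul hR]
    have := xU_lt D n k
    rw [h1] at this
    rwa [Nat.mul_comm]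
  · exact D.s1 j

theorem zU_lt (n k : ℕ) (hk : k < TT D n) : zU D n k < nP D := by
  unfold zU
  have hs := D.s1 n
  have hA := D.A2 n
  have hnP : nP D = 4 + 4 * D.mu := by unfold nP; ring
  split_ifs with h
  · have : k / D.s n < 4 := by rw [Nat.div_lt_iff_lt_mul hs]; exact h
    omega
  · have : (k - 4 * D.s n) / D.A n < 4 * D.mu := by
      rw [Nat.div_lt_iff_lt_mul (by omega)]
      unfold TT at hk
      omega
    omega

theorem fresh (n k : ℕ) : ∀ j i, i < j → j ≤ n → cU D n j k < D.f j → cU D n i k < bb D i := by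
  have hstep : ∀ j, j + 1 ≤ n → cU D n (j + 1) k < D.f (j + 1) → cU D n j k < bb D j := by
    intro j hj h
    obtain ⟨R, hR, h1, _, h3⟩ := ratio D (j + 1) n hj
    have hL := D.L4 j
    unfold cU at h ⊢
    rw [if_pos hj, h3, D.f_succ] at h
    rw [if_pos (by omega)]
    have h4 : D.s n / D.s j = R * D.L j := by
      rw [h1, D.s_succ]
      have : R * (D.L j * D.s j) = R * D.L j * D.s j := by ring
      rw [this]
      exact Nat.mul_div_cancel _ (D.s1 j)
    rw [h4, ← Nat.div_div_eq_div_mul, Nat.div_lt_iff_lt_mul (by omega)]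
    unfold bb
    calc _ < _ := h
      _ = _ := by ring
  intro j
  induction j with
  | zero => intro i hi; omega
  | succ j ih =>
    intro i hi hj h
    have h1 := hstep j hj h
    rcases Nat.lt_or_ge i j with h2 | h2
    · apply ih i h2 (by omega)
      unfold bb at h1
      omega
    · have : i = j := by omega
      subst this
      exact h1

theorem units_q (n q : ℕ) (hq : q < nP D) : ∃ G : Finset ℕ, G ⊆ range (TT D n) ∧ D.A n ≤ G.card ∧
    ∀ k ∈ G, zU D n k = q := by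
  have hs := D.s1 n
  have hA := D.A2 n
  have hnP : nP D = 4 + 4 * D.mu := by unfold nP; ring
  by_cases h4 : q < 4
  · refine ⟨(range (D.s n)).image (fun ρ => q * D.s n + ρ), ?_, ?_, ?_⟩
    · intro k hk
      rw [mem_image] at hk
      obtain ⟨ρ, hρ, rfl⟩ := hk
      rw [mem_range] at hρ ⊢
      unfold TT
      have : (q + 1) * D.s n ≤ 4 * D.s n := Nat.mul_le_mul_right _ (by omega)
      rw [Nat.add_mul] at this
      omega
    · rw [Finset.card_image_of_injective _ (fun a b h => Nat.add_left_cancel h), card_range]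
      exact D.A_le n
    · intro k hk
      rw [mem_image] at hk
      obtain ⟨ρ, hρ, rfl⟩ := hk
      rw [mem_range] at hρ
      unfold zU
      have : (q + 1) * D.s n ≤ 4 * D.s n := Nat.mul_le_mul_right _ (by omega)
      rw [Nat.add_mul] at this
      rw [if_pos (by omega), Nat.mul_comm, Nat.mul_add_div (by omega), Nat.div_eq_of_lt hρ]
      omega
  · refine ⟨(range (D.A n)).image (fun ρ => 4 * D.s n + (q - 4) * D.A n + ρ), ?_, ?_, ?_⟩
    · intro k hk
      rw [mem_image] at hk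
      obtain ⟨ρ, hρ, rfl⟩ := hk
      rw [mem_range] at hρ ⊢
      unfold TT
      have : (q - 4 + 1) * D.A n ≤ 4 * D.mu * D.A n := Nat.mul_le_mul_right _ (by omega)
      rw [Nat.add_mul (q - 4) 1] at this
      omega
    · rw [Finset.card_image_of_injective _ (fun a b h => Nat.add_left_cancel h), card_range]
    · intro k hk
      rw [mem_image] at hk
      obtain ⟨ρ, hρ, rfl⟩ := hk
      rw [mem_range] at hρ
      unfold zU
      rw [if_neg (by omega)]
      have : 4 * D.s n + (q - 4) * D.A n + ρ - 4 * D.s n = D.A n * (q - 4) + ρ := by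
        rw [Nat.mul_comm (D.A n)]; omega
      rw [this, Nat.mul_add_div (by omega), Nat.div_eq_of_lt hρ]
      omega

theorem units_N (n a j : ℕ) (ha : a < 2) (hj : j ≤ n) (N : Finset ℕ)
    (hN : N ⊆ range (2 * D.s j)) (hcard : N.card = D.A j) :
    ∃ G : Finset ℕ, G ⊆ range (TT D n) ∧ D.A n ≤ G.card ∧
      ∀ k ∈ G, phi (D.s j) a (zU D n k) (cU D n j k) ∈ N := by
  obtain ⟨R, hR, h1, h2, h3⟩ := ratio D j n hj
  have hs := D.s1 n
  have hsj := D.s1 j
  -- the unit of (κ, ρ)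
  set Φ : ℕ × ℕ → ℕ := fun x =>
    if x.1 < D.s j then (a + 1) * D.s n + (x.1 * R + x.2)
    else ((a + 3) % 4) * D.s n + ((x.1 - D.s j) * R + x.2) with hΦ
  have hval : ∀ (ζ κ ρ : ℕ), ζ < 4 → κ < D.s j → ρ < R →
      ζ * D.s n + (κ * R + ρ) < 4 * D.s n ∧
      zU D n (ζ * D.s n + (κ * R + ρ)) = ζ ∧ cU D n j (ζ * D.s n + (κ * R + ρ)) = κ ∧
      (ζ * D.s n + (κ * R + ρ)) % R = ρ := by
    intro ζ κ ρ hζ hκ hρ
    have e1 : κ * R + ρ < D.s n := by
      have : (κ + 1) * R ≤ D.s j * R := Nat.mul_le_mul_right _ hκ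
      rw [Nat.add_mul, Nat.mul_comm (D.s j), ← h1] at this
      omega
    have e2 : (ζ + 1) * D.s n ≤ 4 * D.s n := Nat.mul_le_mul_right _ (by omega)
    rw [Nat.add_mul] at e2
    have e3 : ζ * D.s n + (κ * R + ρ) < 4 * D.s n := by omega
    refine ⟨e3, ?_, ?_, ?_⟩
    · unfold zU
      rw [if_pos e3, Nat.mul_comm, Nat.mul_add_div (by omega), Nat.div_eq_of_lt e1]
      omega
    · unfold cU xU
      rw [if_pos hj, if_pos e3, h3, Nat.mul_comm ζ, Nat.mul_add_mod, Nat.mod_eq_of_lt e1,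
        Nat.mul_comm κ, Nat.mul_add_div hR, Nat.div_eq_of_lt hρ]
      omega
    · have : ζ * D.s n + (κ * R + ρ) = R * (ζ * D.s j + κ) + ρ := by rw [h1]; ring
      rw [this, Nat.mul_add_mod, Nat.mod_eq_of_lt hρ]
  have hphi : ∀ κ ρ, κ ∈ N → ρ < R → Φ (κ, ρ) < 4 * D.s n ∧
      phi (D.s j) a (zU D n (Φ (κ, ρ))) (cU D n j (Φ (κ, ρ))) = κ ∧ Φ (κ, ρ) % R = ρ := by
    intro κ ρ hκ hρ
    have hκ2 := hN hκ
    rw [mem_range] at hκ2
    by_cases hc : κ < D.s j
    · obtain ⟨f1, f2, f3, f4⟩ := hval (a + 1) κ ρ (by omega) hc hρ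
      have : Φ (κ, ρ) = (a + 1) * D.s n + (κ * R + ρ) := by simp only [hΦ, if_pos hc]
      rw [this, f2, f3, f4]
      refine ⟨f1, ?_, rfl⟩
      unfold phi
      simp
    · obtain ⟨f1, f2, f3, f4⟩ := hval ((a + 3) % 4) (κ - D.s j) ρ (by omega) (by omega) hρ
      have : Φ (κ, ρ) = ((a + 3) % 4) * D.s n + ((κ - D.s j) * R + ρ) := by
        simp only [hΦ, if_neg hc]
      rw [this, f2, f3, f4]
      refine ⟨f1, ?_, rfl⟩
      unfold phi
      rw [if_neg (by omega), if_pos rfl]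
      omega
  refine ⟨(N ×ˢ range R).image Φ, ?_, ?_, ?_⟩
  · intro k hk
    rw [mem_image] at hk
    obtain ⟨⟨κ, ρ⟩, hx, rfl⟩ := hk
    rw [mem_product, mem_range] at hx
    obtain ⟨f1, _⟩ := hphi κ ρ hx.1 hx.2
    rw [mem_range]
    unfold TT
    omega
  · rw [Finset.card_image_of_injOn, card_product, card_range, hcard, Nat.mul_comm]
    · exact h2
    · rintro ⟨κ, ρ⟩ hx ⟨κ', ρ'⟩ hx' heq
      simp only [coe_product, Set.mem_prod, mem_coe, mem_range] at hx hx'
      obtain ⟨_, f2, f3⟩ := hphi κ ρ hx.1 hx.2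
      obtain ⟨_, f2', f3'⟩ := hphi κ' ρ' hx'.1 hx'.2
      rw [heq] at f2 f3
      rw [f2] at f2'
      rw [f3] at f3'
      rw [f2', f3']
  · intro k hk
    rw [mem_image] at hk
    obtain ⟨⟨κ, ρ⟩, hx, rfl⟩ := hk
    rw [mem_product, mem_range] at hx
    obtain ⟨_, f2, _⟩ := hphi κ ρ hx.1 hx.2
    rw [f2]
    exact hx.1

theorem balancedN {V : Type} [Fintype V] (T : ℕ) (hT : 0 < T) : ∃ u : V → ℕ, (∀ v, u v < T) ∧
    ∀ G : Finset ℕ, G ⊆ range T → ∃ X : Finset V, G.card * (Fintype.card V / T) ≤ X.card ∧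
      ∀ v ∈ X, u v ∈ G := by
  classical
  obtain ⟨n, hn⟩ : ∃ n, n = Fintype.card V := ⟨_, rfl⟩
  rw [← hn]
  obtain ⟨e⟩ : Nonempty (V ≃ Fin n) := ⟨Fintype.equivFinOfCardEq hn.symm⟩
  refine ⟨fun v => (e v : ℕ) % T, fun v => Nat.mod_lt _ hT, ?_⟩
  intro G hG
  refine ⟨univ.filter (fun v => (e v : ℕ) % T ∈ G), ?_, ?_⟩
  · have h1 : ((G ×ˢ range (n / T)).image (fun x : ℕ × ℕ => x.2 * T + x.1)).card
        = G.card * (n / T) := by
      rw [Finset.card_image_of_injOn, card_product, card_range]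
      rintro ⟨a, b⟩ hx ⟨a', b'⟩ hx' heq
      simp only [coe_product, Set.mem_prod, mem_coe] at hx hx'
      have ha := hG hx.1
      have ha' := hG hx'.1
      rw [mem_range] at ha ha'
      simp only at heq
      have e1 : a = a' := by
        have : (b * T + a) % T = (b' * T + a') % T := congrArg (fun t => t % T) heq
        rwa [Nat.mul_comm b, Nat.mul_add_mod, Nat.mod_eq_of_lt ha, Nat.mul_comm b',
          Nat.mul_add_mod, Nat.mod_eq_of_lt ha'] at this
      subst e1
      have : b * T = b' * T := by omega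
      rw [Nat.eq_of_mul_eq_mul_right hT this]
    rw [← h1]
    apply Finset.card_le_card_of_surjOn (fun v => (e v : ℕ))
    intro x hx
    simp only [coe_image, Set.mem_image, mem_coe, mem_product] at hx
    obtain ⟨⟨a, b⟩, ⟨ha, hb⟩, rfl⟩ := hx
    simp only at ha hb
    have ha2 := hG ha
    rw [mem_range] at ha2 hb
    have hlt : b * T + a < n := by
      calc b * T + a < b * T + T := by omega
        _ = (b + 1) * T := by ring
        _ ≤ n / T * T := Nat.mul_le_mul_right _ hb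
        _ ≤ n := Nat.div_mul_le_self _ _
    refine ⟨e.symm ⟨_, hlt⟩, ?_, by simp⟩
    simp only [coe_filter, mem_univ, true_and, Set.mem_ofPred_eq, Equiv.apply_symm_apply]
    rw [Nat.mul_comm b, Nat.mul_add_mod, Nat.mod_eq_of_lt ha2]
    exact ha
  · intro v hv
    rw [mem_filter] at hv
    exact hv.2

theorem pat_lower (r n : ℕ) (hr : 3 ≤ r) (V : Type) [Fintype V] :
    ∃ E : Finset V → Prop, Pat D r n V E ∧ ∀ S : Finset V, S.card + 1 = r →
      D.A n * (Fintype.card V / TT D n) ≤ codeg E S + r := by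
  classical
  have hs := D.s1 n
  have hT : 0 < TT D n := by unfold TT; omega
  obtain ⟨u, hu1, hu2⟩ := balancedN (V := V) (TT D n) hT
  set z : V → ℕ := fun v => zU D n (u v) with hz
  set c : ℕ → V → ℕ := fun j v => cU D n j (u v) with hc
  refine ⟨Edge D n z c, ⟨z, c, ?_, ?_, ?_⟩, ?_⟩
  · intro v; exact zU_lt D n _ (hu1 v)
  · intro j v; exact cU_lt D n j _
  · intro S w hw _ hE
    exact hE S w hw rfl
  · intro S hS
    have hlow := low_cases D n z c (fun v => zU_lt D n _ (hu1 v))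
      (fun v i j hij hj h => fresh D n (u v) j i hij hj h) S (by omega)
    have hfin : ∀ G : Finset ℕ, G ⊆ range (TT D n) → D.A n ≤ G.card →
        (∀ w (hw : w ∉ S), u w ∈ G → Edge D n z c (Finset.cons w S hw)) →
        D.A n * (Fintype.card V / TT D n) ≤ codeg (Edge D n z c) S + r := by
      intro G hG hGc hE
      obtain ⟨X, hX1, hX2⟩ := hu2 G hG
      have h1 := le_codeg (Edge D n z c) S X (fun w hw hwX => hE w hw (hX2 w hwX))
      have h2 : D.A n * (Fintype.card V / TT D n) ≤ G.card * (Fintype.card V / TT D n) :=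
        Nat.mul_le_mul_right _ hGc
      omega
    rcases hlow with ⟨q, hq, hE⟩ | ⟨a, ha, j, hj, p, τ, hE⟩
    · obtain ⟨G, hG1, hG2, hG3⟩ := units_q D n q hq
      exact hfin G hG1 hG2 (fun w hw hwG => hE w hw (hG3 _ hwG))
    · obtain ⟨G, hG1, hG2, hG3⟩ := units_N D n a j ha hj (D.N j p τ) (D.N_sub j p τ) (D.N_card j p τ)
      exact hfin G hG1 hG2 (fun w hw hwG => hE w hw (hG3 _ hwG))

end

end Pool.Agent.W494.CD
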