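import Pool.Agent.W494.CD.Cls
import Pool.Agent.W494.CD.Dat
set_option autoImplicit false
namespace Pool.Agent.W494.CD
open Finset

def nP {y : ℝ} (D : Dat y) : ℕ := 4 * (D.mu + 1)

def suc {y : ℝ} (D : Dat y) (q : ℕ) : ℕ := if q + 1 = nP D then 0 else q + 1

def phi (s a zw cw : ℕ) : ℕ :=
  if zw = a + 1 then cw else if zw = (a + 3) % 4 then s + cw else 2 * s

def bb {y : ℝ} (D : Dat y) (j : ℕ) : ℕ := D.f j - D.f j / 2

def row {y : ℝ} (D : Dat y) (i x x' : ℕ) : Finset ℕ :=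
  D.N (i + 1) ((x - bb D i) / D.t (i + 1) * D.s i + x') ((x - bb D i) % D.t (i + 1))

/-- the pair `(S, v)` forces the set `N` at level `j` for the pair `a` -/
def Req {V : Type} {y : ℝ} (D : Dat y) (n : ℕ) (z : V → ℕ) (c : ℕ → V → ℕ) (S : Finset V) (v : V)
    (a j : ℕ) (N : Finset ℕ) : Prop :=
  (j = 0 ∧ ∃ p τ, p < 2 * D.s 0 ∧ τ < D.t 0 ∧ (∀ u ∈ S, u ≠ v → z u = 4 * (p + 1) + a) ∧
     z v = 4 * (τ + 1) + a + 2 ∧ N = D.N 0 p τ) ∨
  (∃ i, j = i + 1 ∧ i < n ∧ ∃ x, bb D i ≤ x ∧ x < D.f i ∧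
     (∀ u ∈ S, u ≠ v → z u = a ∧ c i u = x) ∧ z v = a + 2 ∧ N = row D i x (c i v))

def Ok {V : Type} {y : ℝ} (D : Dat y) (n : ℕ) (z : V → ℕ) (c : ℕ → V → ℕ) (S : Finset V)
    (w : V) : Prop :=
  (∀ q, (∀ u ∈ S, z u = q) → z w = suc D q) ∧
  (∀ v ∈ S, ∀ a, a < 2 → ∀ j N, Req D n z c S v a j N → phi (D.s j) a (z w) (c j w) ∈ N)

/-- the class at level `n` -/
def Pat {y : ℝ} (D : Dat y) (r n : ℕ) (V : Type) (E : Finset V → Prop) : Prop :=
  ∃ (z : V → ℕ) (c : ℕ → V → ℕ), (∀ v, z v < nP D) ∧ (∀ j v, c j v < D.s j) ∧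
    ∀ (S : Finset V) (w : V) (hw : w ∉ S), S.card + 1 = r → E (Finset.cons w S hw) →
      Ok D n z c S w

theorem req_mono {V : Type} {y : ℝ} (D : Dat y) (n n' : ℕ) (hn : n ≤ n') (z : V → ℕ)
    (c : ℕ → V → ℕ) (S : Finset V) (v : V) (a j : ℕ) (N : Finset ℕ)
    (h : Req D n z c S v a j N) : Req D n' z c S v a j N := by
  rcases h with h | ⟨i, h1, h2, h3⟩
  · left; exact h
  · right; exact ⟨i, h1, by omega, h3⟩

theorem pat_mono {y : ℝ} (D : Dat y) (r n n' : ℕ) (hn : n ≤ n') (V W : Type) (g : V ↪ W)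
    (E : Finset V → Prop) (E' : Finset W → Prop)
    (h : ∀ e, e.card = r → E e → E' (e.map g)) (hW : Pat D r n' W E') : Pat D r n V E := by
  obtain ⟨z, c, hz, hc, hP⟩ := hW
  refine ⟨fun v => z (g v), fun j v => c j (g v), fun v => hz _, fun j v => hc _ _, ?_⟩
  intro S w hw hS hE
  have h1 := h _ (by rw [card_cons]; exact hS) hE
  rw [Finset.map_cons] at h1
  obtain ⟨h2, h3⟩ := hP (S.map g) (g w) (by simpa using hw) (by rw [card_map]; exact hS) h1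
  refine ⟨?_, ?_⟩
  · intro q hq
    apply h2 q
    intro u hu
    rw [mem_map] at hu
    obtain ⟨u', hu', rfl⟩ := hu
    exact hq u' hu'
  · intro v hv a ha j N hreq
    apply h3 (g v) (mem_map_of_mem g hv) a ha j N
    apply req_mono D n n' hn
    rcases hreq with ⟨hj, p, τ, hp, hτ, h4, h5, h6⟩ | ⟨i, hj, hi, x, hx1, hx2, h4, h5, h6⟩
    · left
      refine ⟨hj, p, τ, hp, hτ, ?_, h5, h6⟩
      intro u hu huv
      rw [mem_map] at hu
      obtain ⟨u', hu', rfl⟩ := hu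
      exact h4 u' hu' (fun h => huv (by rw [h]))
    · right
      refine ⟨i, hj, hi, x, hx1, hx2, ?_, h5, h6⟩
      intro u hu huv
      rw [mem_map] at hu
      obtain ⟨u', hu', rfl⟩ := hu
      exact h4 u' hu' (fun h => huv (by rw [h]))

section upper
variable {y : ℝ} (D : Dat y)

theorem N_sum (j : ℕ) (w : ℕ → ℝ) (δ : ℝ)
    (h : ∀ p, p < 2 * D.s j →
      ((2 * D.s j : ℝ) - 1) * (δ - w p) ≤ ((D.A j : ℝ) - 1) * (∑ k ∈ range (2 * D.s j), w k - w p)) :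
    (2 * D.s j : ℝ) * δ ≤ D.A j * ∑ k ∈ range (2 * D.s j), w k := by
  have hs := D.s1 j
  have hA := D.A2 j
  have e1 : 2 * D.s j - 1 + 1 = 2 * D.s j := by omega
  have h1 := design_sum (2 * D.s j - 1) (D.A j - 1) (by omega) w δ (by
    rw [e1]
    intro p hp
    have := h p hp
    rw [Nat.cast_sub (by omega), Nat.cast_sub (by omega)]
    push_cast
    exact this)
  rw [e1, Nat.cast_sub (by omega), Nat.cast_sub (by omega)] at h1
  push_cast at h1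
  have e2 : (2 * (D.s j : ℝ) - 1 + 1) = 2 * D.s j := by ring
  have e3 : ((D.A j : ℝ) - 1 + 1) = D.A j := by ring
  rw [e2, e3] at h1
  exact h1

/-- The key numerical contradiction: `(2s-1)/(A-1) + 2s/A ≥ y`. -/
theorem num_key (j : ℕ) :
    y * ((D.A j : ℝ) * (D.A j - 1)) ≤ (2 * D.s j - 1) * D.A j + 2 * D.s j * (D.A j - 1) := by
  have h1 := D.etaLe j
  have h2 := D.A2 j
  have h2' : (2 : ℝ) ≤ D.A j := by exact_mod_cast h2
  have h3 := D.y32
  generalize (D.A j : ℝ) = A at *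
  generalize (D.s j : ℝ) = s at *
  -- 4 s ≥ y A - y/4
  have h4 : y * A - y / 4 ≤ 4 * s := by linarith
  -- (2s-1)A + 2s(A-1) = 4 s A - A - 2 s = 2s(2A-1) - A
  have h5 : (y * A - y / 4) * (2 * A - 1) ≤ 4 * s * (2 * A - 1) :=
    mul_le_mul_of_nonneg_right h4 (by linarith)
  nlinarith

end upper

end Pool.Agent.W494.CD
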