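import Pool.Agent.W494.CD.Pat
set_option autoImplicit false
namespace Pool.Agent.W494.CD
open Finset

section
variable {y : ℝ} (D : Dat y) {V : Type} [Fintype V]

open Classical in
/-- number of vertices in part `q` -/
noncomputable def cnt (z : V → ℕ) (q : ℕ) : ℕ := (univ.filter (fun v => z v = q)).card

open Classical in
/-- number of vertices in the `k`-th subpart of the pair `a` at level `j` -/
noncomputable def wt (z : V → ℕ) (c : ℕ → V → ℕ) (j a k : ℕ) : ℕ :=
  (univ.filter (fun v => phi (D.s j) a (z v) (c j v) = k)).card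

theorem phi_lt (s a zw cw : ℕ) (hc : cw < s) (h : zw = a + 1 ∨ zw = (a + 3) % 4) :
    phi s a zw cw < 2 * s := by
  unfold phi
  split_ifs with h1 h2
  · omega
  · omega
  · rcases h with h | h
    · exact absurd h h1
    · exact absurd h h2

theorem wt_sum (z : V → ℕ) (c : ℕ → V → ℕ) (hc : ∀ j v, c j v < D.s j) (j a : ℕ) (ha : a < 2) :
    ∑ k ∈ range (2 * D.s j), wt D z c j a k = cnt z (a + 1) + cnt z ((a + 3) % 4) := by
  classical
  unfold wt cnt
  have h1 : ∀ k ∈ range (2 * D.s j),
      (univ.filter (fun v => phi (D.s j) a (z v) (c j v) = k)).card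
      = ((univ.filter (fun v => z v = a + 1 ∨ z v = (a + 3) % 4)).filter
          (fun v => phi (D.s j) a (z v) (c j v) = k)).card := by
    intro k hk
    congr 1
    ext v
    simp only [mem_filter, mem_univ, true_and]
    constructor
    · intro h
      refine ⟨?_, h⟩
      by_contra hcon
      push Not at hcon
      unfold phi at h
      rw [if_neg hcon.1, if_neg hcon.2] at h
      rw [mem_range] at hk
      omega
    · exact fun h => h.2
  rw [Finset.sum_congr rfl h1, ← Finset.card_eq_sum_card_fiberwise]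
  · rw [Finset.filter_or, Finset.card_union_of_disjoint]
    rw [Finset.disjoint_left]
    intro v h2 h3
    rw [mem_filter] at h2 h3
    omega
  · intro v hv
    simp only [coe_filter, mem_univ, true_and, Set.mem_ofPred_eq] at hv
    simp only [coe_range, Set.mem_Iio]
    exact phi_lt _ _ _ _ (hc j v) hv

theorem cnt_sum (z : V → ℕ) (hz : ∀ v, z v < nP D) :
    ∑ q ∈ range (nP D), cnt z q = Fintype.card V := by
  classical
  unfold cnt
  rw [← Finset.card_univ, ← Finset.card_eq_sum_card_fiberwise]
  intro v _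
  simp [hz v]

theorem card_phi (z : V → ℕ) (c : ℕ → V → ℕ) (j a : ℕ) (N : Finset ℕ) (T : Finset V)
    (hT : ∀ w ∈ T, phi (D.s j) a (z w) (c j w) ∈ N) :
    T.card ≤ ∑ k ∈ N, wt D z c j a k := by
  classical
  rw [Finset.card_eq_sum_card_fiberwise (f := fun w => phi (D.s j) a (z w) (c j w)) (t := N)]
  · apply Finset.sum_le_sum
    intro k _
    apply Finset.card_le_card
    intro v hv
    rw [mem_filter] at hv ⊢
    exact ⟨mem_univ _, hv.2⟩
  · intro v hv
    exact hT v hv

/-- all parts are large -/
theorem parts_big (r n : ℕ) (hr : 3 ≤ r) (E : Finset V → Prop) (z : V → ℕ) (c : ℕ → V → ℕ)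
    (hz : ∀ v, z v < nP D)
    (hP : ∀ (S : Finset V) (w : V) (hw : w ∉ S), S.card + 1 = r → E (Finset.cons w S hw) →
      Ok D n z c S w)
    (B : ℕ) (hB : ∀ S : Finset V, S.card + 1 = r → B ≤ codeg E S) (hBr : r ≤ B)
    (hbig : nP D * r < Fintype.card V) : ∀ q, q < nP D → B ≤ cnt z q := by
  classical
  have hstep : ∀ q, r ≤ cnt z q → B ≤ cnt z (suc D q) := by
    intro q hq
    obtain ⟨S, hS1, hS2⟩ := Finset.exists_subset_card_eq
      (s := univ.filter (fun v => z v = q)) (n := r - 1) (by unfold cnt at hq; omega)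
    have hS : S.card + 1 = r := by omega
    refine (hB S hS).trans ?_
    unfold cnt
    apply codeg_le
    intro w hw hE
    rw [mem_filter]
    refine ⟨mem_univ _, (hP S w hw hS hE).1 q ?_⟩
    intro u hu
    have := hS1 hu
    rw [mem_filter] at this
    exact this.2
  obtain ⟨q0, hq0, hq0'⟩ : ∃ q0, q0 < nP D ∧ r ≤ cnt z q0 := by
    by_contra hcon
    push Not at hcon
    have h1 : ∑ q ∈ range (nP D), cnt z q ≤ ∑ _q ∈ range (nP D), r :=
      Finset.sum_le_sum (fun q hq => (hcon q (mem_range.mp hq)).le)
    rw [cnt_sum D z hz] at h1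
    simp only [sum_const, card_range, smul_eq_mul] at h1
    omega
  have hnP : 0 < nP D := by unfold nP; omega
  have hup : ∀ q1, r ≤ cnt z q1 → ∀ k, q1 + k < nP D → r ≤ cnt z (q1 + k) := by
    intro q1 hq1 k
    induction k with
    | zero => intro _; exact hq1
    | succ k ih =>
      intro hk
      have h1 := hstep _ (ih (by omega))
      unfold suc at h1
      rw [if_neg (by omega)] at h1
      have : q1 + (k + 1) = q1 + k + 1 := rfl
      rw [this]; omega
  have hlast : r ≤ cnt z (nP D - 1) := by
    have := hup q0 hq0' (nP D - 1 - q0) (by omega)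
    rwa [show q0 + (nP D - 1 - q0) = nP D - 1 by omega] at this
  have hB0 : B ≤ cnt z 0 := by
    have := hstep _ hlast
    unfold suc at this
    rwa [if_pos (by omega)] at this
  intro q hq
  rcases Nat.eq_zero_or_pos q with rfl | hq1
  · exact hB0
  · have h1 := hup 0 (by omega) (q - 1) (by omega)
    have h2 := hstep _ h1
    unfold suc at h2
    rw [if_neg (by omega), show 0 + (q - 1) + 1 = q by omega] at h2
    exact h2

/-- total count -/
theorem total (z : V → ℕ) (hz : ∀ v, z v < nP D) (B : ℕ) (hB : ∀ q, q < nP D → B ≤ cnt z q) :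
    cnt z 0 + cnt z 1 + cnt z 2 + cnt z 3 + 4 * D.mu * B ≤ Fintype.card V := by
  have h1 := cnt_sum D z hz
  have h2 : nP D = 4 + 4 * D.mu := by unfold nP; ring
  rw [h2, Finset.sum_range_add] at h1
  have h3 : ∑ _q ∈ range (4 * D.mu), B ≤ ∑ q ∈ range (4 * D.mu), cnt z (4 + q) := by
    apply Finset.sum_le_sum
    intro q hq
    apply hB
    rw [mem_range] at hq; omega
  simp only [sum_const, card_range, smul_eq_mul] at h3
  simp only [Finset.sum_range_succ, Finset.sum_range_zero, zero_add] at h1
  omega

end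

end Pool.Agent.W494.CD
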